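import Pool.Agent.H65.PF.Defs
import Pool.Agent.H56.DivBound

set_option autoImplicit false

/-!
# Module SlowD: the divisor function (60 lines)

* `dmax_le`: `Finset.le_sup` with `n ∈ Icc 1 N`.
* `one_le_dmax`: take n = 1.
* `slow_dmax`: for N ≥ 1 the sup is attained (`Finset.exists_mem_eq_sup`) at some n in [1, N];
  then use `Pool.Agent.H56.DivBound.divisors_card_le` and `n ^ ε ≤ N ^ ε`.
* `two_pow_omega`: the products of the subsets of the prime factors are different divisors
  (or: d(n) = prod (a_p + 1) ≥ prod 2, `Nat.card_divisors` / `Nat.Coprime.card_divisors_mul`;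
  in the form `n.divisors.card = ∏ x ∈ n.primeFactors, (n.factorization x + 1)`).
-/

namespace Pool.H65.PF

theorem dmax_le (n N : ℕ) (hn : 1 ≤ n) (hN : n ≤ N) : n.divisors.card ≤ dmax N := by
  exact Finset.le_sup (f := fun n : ℕ => n.divisors.card) (Finset.mem_Icc.2 ⟨hn, hN⟩)

theorem one_le_dmax (N : ℕ) (hN : 1 ≤ N) : 1 ≤ dmax N := by
  have := dmax_le 1 N le_rfl hN
  simpa using this

theorem slow_dmax : Slow dmax := by
  intro ε hε
  obtain ⟨C, hC, h⟩ := Pool.Agent.H56.DivBound.divisors_card_le ε hε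
  refine ⟨C, fun N hN => ?_⟩
  obtain ⟨n, hn, he⟩ := Finset.exists_mem_eq_sup (Finset.Icc 1 N) ⟨1, Finset.mem_Icc.2 ⟨le_rfl, hN⟩⟩
    (fun n : ℕ => n.divisors.card)
  unfold dmax
  rw [he]
  rw [Finset.mem_Icc] at hn
  refine (h n (by omega)).trans ?_
  refine mul_le_mul_of_nonneg_left ?_ hC.le
  exact Real.rpow_le_rpow (by positivity) (by exact_mod_cast hn.2) hε.le

theorem two_pow_omega (n : ℕ) (hn : 1 ≤ n) : 2 ^ n.primeFactors.card ≤ n.divisors.card := by
  rw [Nat.card_divisors (by omega), ← Finset.prod_const]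
  refine Finset.prod_le_prod' fun p hp => ?_
  have hp' := Nat.prime_of_mem_primeFactors hp
  have : 0 < n.factorization p :=
    hp'.factorization_pos_of_dvd (by omega) (Nat.dvd_of_mem_primeFactors hp)
  omega

end Pool.H65.PF
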