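import Pool.Agent.H65.PF.Roots
import Pool.Agent.H65.PF.SlowD

set_option autoImplicit false

/-!
# Module Rts: roots in terms of `dmax` (30 lines)

`e ^ 3 ≤ 343 ≤ 2 ^ 9` for e ≤ 7, so `(e ^ 3) ^ ω(Q) ≤ (2 ^ ω(Q)) ^ 9 ≤ d(Q) ^ 9 ≤ dmax N ^ 9`
by `roots`, `two_pow_omega`, `dmax_le`.
-/

namespace Pool.H65.PF

theorem roots_dmax (e : ℕ) (he : 1 ≤ e) (he7 : e ≤ 7) (Q N : ℕ) (hQ : 1 ≤ Q) (hN : Q ≤ N)
    (c : ZMod Q) :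
    {t : ZMod Q | IsUnit t ∧ t ^ e = c}.Finite ∧
      {t : ZMod Q | IsUnit t ∧ t ^ e = c}.ncard ≤ dmax N ^ 9 := by
  obtain ⟨h1, h2⟩ := roots e he Q hQ c
  refine ⟨h1, h2.trans ?_⟩
  have h3 : e ^ 3 ≤ 2 ^ 9 := by
    calc e ^ 3 ≤ 7 ^ 3 := Nat.pow_le_pow_left he7 3
      _ ≤ 2 ^ 9 := by norm_num
  calc (e ^ 3) ^ Q.primeFactors.card ≤ (2 ^ 9) ^ Q.primeFactors.card :=
        Nat.pow_le_pow_left h3 _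
    _ = (2 ^ Q.primeFactors.card) ^ 9 := by rw [← pow_mul, ← pow_mul, mul_comm]
    _ ≤ Q.divisors.card ^ 9 := Nat.pow_le_pow_left (two_pow_omega Q hQ) 9
    _ ≤ dmax N ^ 9 := Nat.pow_le_pow_left (dmax_le Q N hQ hN) 9

end Pool.H65.PF
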