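import Pool.Agent.H65.PF.Pair
import Pool.Agent.H65.PF.Rts

set_option autoImplicit false

/-!
# Module Cong: coprime pairs with A u^(ep) = ± B v^(eq) modulo Q (120 lines)

Proof. `cong_one` is the statement for one fixed sign: s = 1 or s = -1 in ZMod Q (s ^ 2 = 1).
For z = (u, v) in Z put t(z) = u ^ p * (v ^ q)⁻¹ in ZMod Q (v is a unit since coprime to Q,
`ZMod.isUnit_iff_coprime` / `ZMod.unitOfCoprime`). Then t(z) is a unit with
t(z) ^ e = s B A⁻¹ =: c. By `roots_dmax` there are at most dmax N ^ 9 values of t(z). The pairs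
with a given t: their images (u ^ p, v ^ q) satisfy the hypotheses of `pair_count` with
U = 2 ^ (p (a + 1)), V = 2 ^ (q (b + 1)) (Nat.log 2 u = a gives 2 ^ a ≤ u < 2 ^ (a + 1), so
u ^ p ≤ U, v ^ q ≤ V, and 8 v ^ q ≥ 2 ^ q 2 ^ (q b) = V since q ≤ 3), the map
(u, v) ↦ (u ^ p, v ^ q) is injective (p, q ≥ 1), and
8 U V = 8 * 2 ^ (p + q) * 2 ^ (p a + q b) ≤ 256 * 2 ^ (p a + q b) as p + q ≤ 5.
Then `Finset.card_le_mul_card_image` (real version: sum over the fibres,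
`Finset.card_eq_sum_card_fiberwise`) gives the bound. `cong_count`: split Z by the sign.
-/

namespace Pool.H65.PF

private theorem cong_unit {Q v : ℕ} (h : Nat.Coprime v Q) : IsUnit (v : ZMod Q) :=
  (ZMod.isUnit_iff_coprime v Q).2 h

theorem cong_one (N e p q : ℕ) (he : 1 ≤ e) (he7 : e ≤ 7) (hp : 1 ≤ p) (hq : 1 ≤ q)
    (hpq : p + q ≤ 5) (hq3 : q ≤ 3) (Q : ℕ) (hQ : 1 ≤ Q) (hQN : Q ≤ N) (A B a b : ℕ)
    (hA : Nat.Coprime A Q) (hB : Nat.Coprime B Q) (s : ZMod Q) (hs : IsUnit s)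
    (Z : Finset (ℕ × ℕ))
    (hZ : ∀ z ∈ Z, 1 ≤ z.1 ∧ 1 ≤ z.2 ∧ Nat.log 2 z.1 = a ∧ Nat.log 2 z.2 = b ∧
      Nat.Coprime z.1 z.2 ∧ Nat.Coprime z.1 Q ∧ Nat.Coprime z.2 Q ∧
      ((A * z.1 ^ (e * p) : ℕ) : ZMod Q) = s * ((B * z.2 ^ (e * q) : ℕ) : ZMod Q)) :
    (Z.card : ℝ) ≤ (dmax N : ℝ) ^ 9 * (1 + 256 * 2 ^ (p * a + q * b) / Q) := by
  classical
  have hAu := cong_unit hA
  obtain ⟨hfin, hcard⟩ := roots_dmax e he he7 Q N hQ hQN
    ((A : ZMod Q)⁻¹ * (s * (B : ZMod Q)))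
  have hTcard : (hfin.toFinset.card : ℝ) ≤ (dmax N : ℝ) ^ 9 := by
    rw [← Set.ncard_eq_toFinset_card _ hfin]
    exact_mod_cast hcard
  obtain ⟨t, ht⟩ : ∃ t : ℕ × ℕ → ZMod Q, t = fun z =>
      (z.1 : ZMod Q) ^ p * ((z.2 : ZMod Q) ^ q)⁻¹ := ⟨_, rfl⟩
  have htv : ∀ z ∈ Z, (z.1 : ZMod Q) ^ p = t z * (z.2 : ZMod Q) ^ q := by
    intro z hz
    have hv := cong_unit (hZ z hz).2.2.2.2.2.2.1
    rw [ht, mul_assoc, ZMod.inv_mul_of_unit _ (hv.pow q), mul_one]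
  have hmem : ∀ z ∈ Z, t z ∈ hfin.toFinset := by
    intro z hz
    obtain ⟨_, _, _, _, _, h6, h7, h8⟩ := hZ z hz
    have hu := cong_unit h6
    have hv := cong_unit h7
    rw [Set.Finite.mem_toFinset]
    refine ⟨?_, ?_⟩
    · have h9 : IsUnit (t z * (z.2 : ZMod Q) ^ q) := by
        rw [← htv z hz]
        exact hu.pow p
      exact isUnit_of_mul_isUnit_left h9
    · push_cast at h8
      have h9 : (A : ZMod Q) * (t z) ^ e * (z.2 : ZMod Q) ^ (e * q) =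
          s * (B : ZMod Q) * (z.2 : ZMod Q) ^ (e * q) := by
        rw [← mul_assoc] at h8
        have h11 : (z.1 : ZMod Q) ^ (e * p) = (t z) ^ e * (z.2 : ZMod Q) ^ (e * q) := by
          rw [mul_comm e p, pow_mul, htv z hz, mul_pow, ← pow_mul, mul_comm q e]
        rw [← h8, h11, mul_assoc]
      have h10 := (hv.pow (e * q)).mul_right_cancel h9
      rw [← h10, ← mul_assoc, ZMod.inv_mul_of_unit _ hAu, one_mul]
  have hU1 : ∀ z ∈ Z, z.1 ^ p ≤ 2 ^ (p * (a + 1)) := by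
    intro z hz
    have h1 : z.1 < 2 ^ (a + 1) := by
      rw [← (hZ z hz).2.2.1]
      exact Nat.lt_pow_succ_log_self one_lt_two _
    calc z.1 ^ p ≤ (2 ^ (a + 1)) ^ p := Nat.pow_le_pow_left h1.le p
      _ = 2 ^ (p * (a + 1)) := by rw [← pow_mul, mul_comm]
  have hV1 : ∀ z ∈ Z, z.2 ^ q ≤ 2 ^ (q * (b + 1)) := by
    intro z hz
    have h1 : z.2 < 2 ^ (b + 1) := by
      rw [← (hZ z hz).2.2.2.1]
      exact Nat.lt_pow_succ_log_self one_lt_two _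
    calc z.2 ^ q ≤ (2 ^ (b + 1)) ^ q := Nat.pow_le_pow_left h1.le q
      _ = 2 ^ (q * (b + 1)) := by rw [← pow_mul, mul_comm]
  have hV2 : ∀ z ∈ Z, 2 ^ (q * (b + 1)) ≤ 8 * z.2 ^ q := by
    intro z hz
    have h1 : 2 ^ b ≤ z.2 := by
      rw [← (hZ z hz).2.2.2.1]
      exact Nat.pow_log_le_self 2 (by have := (hZ z hz).2.1; omega)
    have h2 : 2 ^ q ≤ 8 := by
      calc 2 ^ q ≤ 2 ^ 3 := Nat.pow_le_pow_right (by norm_num) hq3
        _ = 8 := by norm_num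
    calc 2 ^ (q * (b + 1)) = 2 ^ q * (2 ^ b) ^ q := by
          rw [← pow_mul, ← pow_add]
          congr 1
          ring
      _ ≤ 8 * z.2 ^ q := Nat.mul_le_mul h2 (Nat.pow_le_pow_left h1 q)
  have hfib : ∀ t0 ∈ hfin.toFinset, ((Z.filter fun z => t z = t0).card : ℝ) ≤
      1 + 256 * 2 ^ (p * a + q * b) / Q := by
    intro t0 _
    have hinj : Set.InjOn (fun z : ℕ × ℕ => (z.1 ^ p, z.2 ^ q))
        (Z.filter fun z => t z = t0 : Finset (ℕ × ℕ)) := by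
      intro z _ z' _ h
      simp only [Prod.mk.injEq] at h
      exact Prod.ext (Nat.pow_left_injective (by omega : p ≠ 0) h.1)
        (Nat.pow_left_injective (by omega : q ≠ 0) h.2)
    have key := pair_count Q (2 ^ (p * (a + 1))) (2 ^ (q * (b + 1))) hQ
      (Nat.one_le_pow _ _ (by norm_num)) t0
      ((Z.filter fun z => t z = t0).image fun z : ℕ × ℕ => (z.1 ^ p, z.2 ^ q)) (by
        intro w hw
        obtain ⟨z, hz, rfl⟩ := Finset.mem_image.1 hw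
        obtain ⟨hz1, hz2⟩ := Finset.mem_filter.1 hz
        obtain ⟨h1, h2, _, _, h5, _, _, _⟩ := hZ z hz1
        refine ⟨Nat.one_le_pow _ _ h1, Nat.one_le_pow _ _ h2, h5.pow p q, hU1 z hz1,
          hV2 z hz1, hV1 z hz1, ?_⟩
        push_cast
        rw [← hz2]
        exact htv z hz1)
    rw [Finset.card_image_of_injOn hinj] at key
    refine key.trans ?_
    have hQ0 : (0 : ℝ) < Q := by exact_mod_cast hQ
    have h1 : (8 : ℝ) * ((2 ^ (p * (a + 1)) : ℕ) : ℝ) * ((2 ^ (q * (b + 1)) : ℕ) : ℝ) ≤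
        256 * 2 ^ (p * a + q * b) := by
      have h2 : (2 : ℝ) ^ (p + q) ≤ 2 ^ 5 := pow_le_pow_right₀ (by norm_num) hpq
      have h3 : (2 : ℝ) ^ (p * (a + 1)) * 2 ^ (q * (b + 1)) =
          2 ^ (p + q) * 2 ^ (p * a + q * b) := by
        rw [← pow_add, ← pow_add]
        congr 1
        ring
      push_cast
      rw [mul_assoc, h3]
      have h4 : (0 : ℝ) < 2 ^ (p * a + q * b) := by positivity
      nlinarith
    have h5 := div_le_div_of_nonneg_right h1 hQ0.le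
    linarith
  have hsplit := Finset.card_eq_sum_card_fiberwise (f := t) (s := Z) (t := hfin.toFinset) hmem
  rw [hsplit]
  push_cast
  calc ∑ t0 ∈ hfin.toFinset, ((Z.filter fun z => t z = t0).card : ℝ)
      ≤ hfin.toFinset.card • (1 + 256 * 2 ^ (p * a + q * b) / (Q : ℝ)) :=
        Finset.sum_le_card_nsmul _ _ _ hfib
    _ = (hfin.toFinset.card : ℝ) * (1 + 256 * 2 ^ (p * a + q * b) / (Q : ℝ)) := by
        rw [nsmul_eq_mul]
    _ ≤ (dmax N : ℝ) ^ 9 * (1 + 256 * 2 ^ (p * a + q * b) / Q) :=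
        mul_le_mul_of_nonneg_right hTcard (by positivity)

theorem cong_count (N e p q : ℕ) (he : 1 ≤ e) (he7 : e ≤ 7) (hp : 1 ≤ p) (hq : 1 ≤ q)
    (hpq : p + q ≤ 5) (hq3 : q ≤ 3) (Q : ℕ) (hQ : 1 ≤ Q) (hQN : Q ≤ N) (A B a b : ℕ)
    (hA : Nat.Coprime A Q) (hB : Nat.Coprime B Q) (Z : Finset (ℕ × ℕ))
    (hZ : ∀ z ∈ Z, 1 ≤ z.1 ∧ 1 ≤ z.2 ∧ Nat.log 2 z.1 = a ∧ Nat.log 2 z.2 = b ∧
      Nat.Coprime z.1 z.2 ∧ Nat.Coprime z.1 Q ∧ Nat.Coprime z.2 Q ∧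
      (((A * z.1 ^ (e * p) : ℕ) : ZMod Q) = ((B * z.2 ^ (e * q) : ℕ) : ZMod Q) ∨
        ((A * z.1 ^ (e * p) : ℕ) : ZMod Q) = - ((B * z.2 ^ (e * q) : ℕ) : ZMod Q))) :
    (Z.card : ℝ) ≤ 2 * (dmax N : ℝ) ^ 9 * (1 + 256 * 2 ^ (p * a + q * b) / Q) := by
  classical
  have k1 := cong_one N e p q he he7 hp hq hpq hq3 Q hQ hQN A B a b hA hB 1 isUnit_one
    (Z.filter fun z => ((A * z.1 ^ (e * p) : ℕ) : ZMod Q) = ((B * z.2 ^ (e * q) : ℕ) : ZMod Q))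
    (by
      intro z hz
      obtain ⟨hz1, hz2⟩ := Finset.mem_filter.1 hz
      obtain ⟨h1, h2, h3, h4, h5, h6, h7, _⟩ := hZ z hz1
      exact ⟨h1, h2, h3, h4, h5, h6, h7, by rw [one_mul]; exact hz2⟩)
  have k2 := cong_one N e p q he he7 hp hq hpq hq3 Q hQ hQN A B a b hA hB (-1) isUnit_one.neg
    (Z.filter fun z => ¬ ((A * z.1 ^ (e * p) : ℕ) : ZMod Q) = ((B * z.2 ^ (e * q) : ℕ) : ZMod Q))
    (by
      intro z hz
      obtain ⟨hz1, hz2⟩ := Finset.mem_filter.1 hz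
      obtain ⟨h1, h2, h3, h4, h5, h6, h7, h8⟩ := hZ z hz1
      exact ⟨h1, h2, h3, h4, h5, h6, h7, by rw [neg_one_mul]; exact h8.resolve_left hz2⟩)
  have h := Finset.card_filter_add_card_filter_not (s := Z)
    (fun z => ((A * z.1 ^ (e * p) : ℕ) : ZMod Q) = ((B * z.2 ^ (e * q) : ℕ) : ZMod Q))
  rw [← h]
  push_cast at k1 k2 ⊢
  linarith

end Pool.H65.PF
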