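import Pool.Agent.H65.PF.Defs

set_option autoImplicit false

/-!
# Module Mask: counting by fibres of a coordinate projection (80 lines)

* `mask_card`: the image of T under `mask K` is contained in the set of functions w with
  w x = 0 for x outside K and w x in [2 ^ k x, 2 ^ (k x + 1)) for x in K
  (`Fintype.piFinset (fun x => if x ∈ K then Finset.Ico (2 ^ k x) (2 ^ (k x + 1)) else {0})`),
  which has 2 ^ (sum of k over K) elements (`Nat.pow_log_le_self`, `Nat.lt_pow_succ_log_self`).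
* `fiber_bound`: card T = sum over w in the image of the cardinality of the fibre.
-/

namespace Pool.H65.PF

theorem mask_card {ι : Type*} [Fintype ι] [DecidableEq ι] (K : Finset ι) (k : ι → ℕ)
    (T : Finset (ι → ℕ)) (hT : ∀ v ∈ T, ∀ x, 0 < v x ∧ Nat.log 2 (v x) = k x) :
    (T.image (mask K)).card ≤ 2 ^ (∑ x ∈ K, k x) := by
  have h1 : T.image (mask K) ⊆ Fintype.piFinset
      (fun x => if x ∈ K then Finset.Ico (2 ^ k x) (2 ^ (k x + 1)) else {0}) := by
    intro w hw
    rw [Finset.mem_image] at hw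
    obtain ⟨v, hv, rfl⟩ := hw
    rw [Fintype.mem_piFinset]
    intro x
    unfold mask
    split_ifs with hx
    · rw [Finset.mem_Ico]
      obtain ⟨h2, h3⟩ := hT v hv x
      rw [← h3]
      exact ⟨Nat.pow_log_le_self 2 h2.ne', Nat.lt_pow_succ_log_self (by norm_num) _⟩
    · exact Finset.mem_singleton_self 0
  refine le_trans (Finset.card_le_card h1) ?_
  rw [Fintype.card_piFinset, ← Finset.prod_pow_eq_pow_sum]
  have h2 : ∀ x, (if x ∈ K then Finset.Ico (2 ^ k x) (2 ^ (k x + 1)) else {0} : Finset ℕ).card =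
      if x ∈ K then 2 ^ k x else 1 := by
    intro x
    split_ifs
    · rw [Nat.card_Ico, pow_succ]
      omega
    · rfl
  rw [Finset.prod_congr rfl fun x _ => h2 x, Finset.prod_ite_mem, Finset.univ_inter]

theorem fiber_bound {ι : Type*} [Fintype ι] [DecidableEq ι] (K : Finset ι) (k : ι → ℕ)
    (T : Finset (ι → ℕ)) (hT : ∀ v ∈ T, ∀ x, 0 < v x ∧ Nat.log 2 (v x) = k x) (b : ℝ)
    (hb : ∀ w : ι → ℕ, ((T.filter (fun v => mask K v = w)).card : ℝ) ≤ b) :
    (T.card : ℝ) ≤ b * 2 ^ (∑ x ∈ K, k x) := by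
  have h0 : 0 ≤ b := le_trans (Nat.cast_nonneg _) (hb (fun _ => 0))
  have h1 := Finset.card_eq_sum_card_image (mask K) T
  rw [h1]
  push_cast
  calc ∑ w ∈ T.image (mask K), ((T.filter (fun v => mask K v = w)).card : ℝ)
      ≤ ∑ _w ∈ T.image (mask K), b := Finset.sum_le_sum fun w _ => hb w
    _ = ((T.image (mask K)).card : ℝ) * b := by rw [Finset.sum_const, nsmul_eq_mul]
    _ ≤ (2 ^ (∑ x ∈ K, k x) : ℝ) * b := by
        apply mul_le_mul_of_nonneg_right _ h0
        exact_mod_cast mask_card K k T hT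
    _ = b * 2 ^ (∑ x ∈ K, k x) := mul_comm _ _

end Pool.H65.PF
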