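import Pool.Agent.H65.PF.SlowD

set_option autoImplicit false

/-!
# Module Rest: the coordinates of one given number (70 lines)

If all v in T agree outside the coordinates (l, g) and `nm v l = n` for all v in T, then every
v (l, g) is a divisor of n (its exponent r + g is positive because g : Fin r forces r ≥ 1), so T
injects into the functions Fin r → n.divisors (`Fintype.piFinset (fun _ => n.divisors)`), and
|T| ≤ d(n) ^ r ≤ dmax N ^ r.
-/

namespace Pool.H65.PF

theorem rest_count {q r : ℕ} (N n : ℕ) (hn : 1 ≤ n) (hN : n ≤ N) (l : Fin q)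
    (T : Finset (Fin q × Fin r → ℕ)) (w : Fin q × Fin r → ℕ)
    (h1 : ∀ v ∈ T, ∀ x : Fin q × Fin r, x.1 ≠ l → v x = w x) (h2 : ∀ v ∈ T, nm v l = n) :
    T.card ≤ dmax N ^ r := by
  classical
  have h3 : T.card ≤ (Fintype.piFinset (fun _ : Fin r => n.divisors)).card := by
    apply Finset.card_le_card_of_injOn (fun v => fun g : Fin r => v (l, g))
    · intro v hv
      rw [Finset.mem_coe] at hv
      rw [Finset.mem_coe, Fintype.mem_piFinset]
      intro g
      rw [Nat.mem_divisors]
      refine ⟨?_, by omega⟩
      rw [← h2 v hv]
      unfold nm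
      have h4 : v (l, g) ∣ v (l, g) ^ (r + (g : ℕ)) := by
        apply dvd_pow_self
        have := g.pos
        omega
      exact h4.trans (Finset.dvd_prod_of_mem (fun g : Fin r => v (l, g) ^ (r + (g : ℕ)))
        (Finset.mem_univ g))
    · intro v hv v' hv' he
      rw [Finset.mem_coe] at hv hv'
      funext x
      by_cases hx : x.1 = l
      · have h5 := congrFun he x.2
        obtain ⟨a, b⟩ := x
        simp only at hx
        subst hx
        exact h5
      · rw [h1 v hv x hx, h1 v' hv' x hx]
  refine le_trans h3 ?_
  rw [Fintype.card_piFinset, Finset.prod_const, Finset.card_univ, Fintype.card_fin]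
  exact Nat.pow_le_pow_left (dmax_le n N hn hN) r

end Pool.H65.PF
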