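import Pool.Agent.H65.PF.T4
import Pool.Agent.H65.PF.Mask
import Pool.Agent.H65.PF.Rest
import Pool.Agent.H65.PF.Cong

set_option autoImplicit false

/-!
# Module L4: second counting strategy for r = 4 (150 lines)

`L4fib`: a fibre. F is a set of solutions which agree in all coordinates (i, g) with g ≠ f,
(j, g) with g ≠ f', (l, g) with g in M, and lie in the box k. Fix v0 in F (F empty: trivial) and put
A = prod over g ≠ f of v0 (i, g) ^ (4 + g), B the same for j, f', and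
Q = prod over g in M of v0 (l, g) ^ (4 + g). Then nm v i = A * v (i, f) ^ (e p),
nm v j = B * v (j, f') ^ (e q) (`nm_split`), Q divides nm v l, so Q ≤ N, A, B, v (i, f), v (j, f')
are coprime to Q (`Tup4.coprime`), v (i, f), v (j, f') are coprime, and the congruence of
`cong_count` holds by `Tup4.modeq`. Let Z be the image of F under v ↦ (v (i, f), v (j, f')).
`cong_count` with a = k (i, f), b = k (j, f') bounds |Z|, and
2 ^ (sum over g in M of (4 + g) k (l, g)) ≤ Q. For every z in Z the v in F with image z agree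
outside the coordinates (l, g), so nm v l is constant (`Tup4.third`) and there are at most
dmax N ^ 4 of them (`rest_count`). Multiply (`Finset.card_eq_sum_card_fiberwise`).
`L4`: `fiber_bound` with the set K of the coordinates (i, g), g ≠ f, (j, g), g ≠ f',
(l, g), g in M (three disjoint images of finsets of Fin 4 under g ↦ (i, g) etc.).
-/

namespace Pool.H65.PF

private theorem L4_fin3 {i j l x : Fin 3} (hij : i ≠ j) (hil : i ≠ l) (hjl : j ≠ l)
    (hx : x ≠ l) : x = i ∨ x = j := by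
  revert i j l x
  decide

theorem L4fib (N : ℕ) (k : Fin 3 × Fin 4 → ℕ) (F : Finset (Fin 3 × Fin 4 → ℕ))
    (hF : ∀ v ∈ F, Tup4 N v ∧ ∀ x, Nat.log 2 (v x) = k x) (i j l : Fin 3) (hij : i ≠ j)
    (hil : i ≠ l) (hjl : j ≠ l) (f f' : Fin 4) (e p q : ℕ) (he : 1 ≤ e) (he7 : e ≤ 7)
    (hp : 1 ≤ p) (hq : 1 ≤ q) (hpq : p + q ≤ 5) (hq3 : q ≤ 3) (hf : 4 + (f : ℕ) = e * p)
    (hf' : 4 + (f' : ℕ) = e * q) (M : Finset (Fin 4))
    (hag : ∀ v ∈ F, ∀ v' ∈ F, (∀ g, g ≠ f → v (i, g) = v' (i, g)) ∧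
      (∀ g, g ≠ f' → v (j, g) = v' (j, g)) ∧ (∀ g ∈ M, v (l, g) = v' (l, g))) :
    (F.card : ℝ) ≤ 2 * (dmax N : ℝ) ^ 13 *
      (1 + 256 * 2 ^ (p * k (i, f) + q * k (j, f')) / 2 ^ (∑ g ∈ M, (4 + (g : ℕ)) * k (l, g))) := by
  classical
  rcases F.eq_empty_or_nonempty with hE | ⟨v0, hv0⟩
  · subst hE
    simp only [Finset.card_empty, Nat.cast_zero]
    positivity
  set A : ℕ := ∏ g ∈ Finset.univ.erase f, v0 (i, g) ^ (4 + (g : ℕ)) with hAdef
  set B : ℕ := ∏ g ∈ Finset.univ.erase f', v0 (j, g) ^ (4 + (g : ℕ)) with hBdef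
  set Q : ℕ := ∏ g ∈ M, v0 (l, g) ^ (4 + (g : ℕ)) with hQdef
  have hAi : ∀ v ∈ F, nm v i = A * v (i, f) ^ (e * p) := by
    intro v hv
    rw [nm_split v i f, hf, hAdef]
    congr 1
    refine Finset.prod_congr rfl fun g hg => ?_
    rw [(hag v hv v0 hv0).1 g (Finset.ne_of_mem_erase hg)]
  have hBj : ∀ v ∈ F, nm v j = B * v (j, f') ^ (e * q) := by
    intro v hv
    rw [nm_split v j f', hf', hBdef]
    congr 1
    refine Finset.prod_congr rfl fun g hg => ?_
    rw [(hag v hv v0 hv0).2.1 g (Finset.ne_of_mem_erase hg)]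
  have hQl : ∀ v ∈ F, Q ∣ nm v l := by
    intro v hv
    have h1 : Q = ∏ g ∈ M, v (l, g) ^ (4 + (g : ℕ)) := by
      rw [hQdef]
      refine Finset.prod_congr rfl fun g hg => ?_
      rw [(hag v hv v0 hv0).2.2 g hg]
    rw [h1]
    exact Finset.prod_dvd_prod_of_subset _ _ _ (Finset.subset_univ M)
  have hT0 : Tup4 N v0 := (hF v0 hv0).1
  have hpos0 : ∀ x, 0 < v0 x := hT0.1
  have hQ1 : 1 ≤ Q := by
    rw [hQdef]
    exact Finset.prod_pos fun g _ => pow_pos (hpos0 _) _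
  have hQN : Q ≤ N := le_trans (Nat.le_of_dvd (nm_pos v0 hpos0 l) (hQl v0 hv0)) (hT0.le l)
  have hAQ : Nat.Coprime A Q := by
    have h := hT0.coprime hil
    have hA : A ∣ nm v0 i := ⟨_, hAi v0 hv0⟩
    exact (h.coprime_dvd_left hA).coprime_dvd_right (hQl v0 hv0)
  have hBQ : Nat.Coprime B Q := by
    have h := hT0.coprime hjl
    have hB : B ∣ nm v0 j := ⟨_, hBj v0 hv0⟩
    exact (h.coprime_dvd_left hB).coprime_dvd_right (hQl v0 hv0)
  have hep : e * p ≠ 0 := by positivity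
  have heq : e * q ≠ 0 := by positivity
  set φ : (Fin 3 × Fin 4 → ℕ) → ℕ × ℕ := fun v => (v (i, f), v (j, f')) with hφ
  have hdi : ∀ v ∈ F, v (i, f) ∣ nm v i := by
    intro v hv
    rw [hAi v hv]
    exact (dvd_pow_self _ hep).mul_left _
  have hdj : ∀ v ∈ F, v (j, f') ∣ nm v j := by
    intro v hv
    rw [hBj v hv]
    exact (dvd_pow_self _ heq).mul_left _
  have hZ := cong_count N e p q he he7 hp hq hpq hq3 Q hQ1 hQN A B (k (i, f)) (k (j, f')) hAQ hBQ
    (F.image φ) (by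
      intro z hz
      obtain ⟨v, hv, rfl⟩ := Finset.mem_image.1 hz
      have hT := (hF v hv).1
      refine ⟨hT.1 _, hT.1 _, (hF v hv).2 _, (hF v hv).2 _, ?_, ?_, ?_, ?_⟩
      · exact ((hT.coprime hij).coprime_dvd_left (hdi v hv)).coprime_dvd_right (hdj v hv)
      · exact ((hT.coprime hil).coprime_dvd_left (hdi v hv)).coprime_dvd_right (hQl v hv)
      · exact ((hT.coprime hjl).coprime_dvd_left (hdj v hv)).coprime_dvd_right (hQl v hv)
      · have h := hT.modeq hij hil hjl Q (hQl v hv)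
        rw [hAi v hv, hBj v hv] at h
        exact h)
  have hd4 : ∀ z ∈ F.image φ, (F.filter (fun v => φ v = z)).card ≤ dmax N ^ 4 := by
    intro z hz
    obtain ⟨v1, hv1, rfl⟩ := Finset.mem_image.1 hz
    have hT1 := (hF v1 hv1).1
    refine rest_count N (nm v1 l) (nm_pos v1 hT1.1 l) (hT1.le l) l _ v1 ?_ ?_
    · intro v hv x hx
      obtain ⟨hvF, hve⟩ := Finset.mem_filter.1 hv
      obtain ⟨h1, h2⟩ := Prod.mk.inj hve
      obtain ⟨a, b⟩ := x
      rcases L4_fin3 hij hil hjl hx with h | h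
      · simp only at h
        subst h
        by_cases hb : b = f
        · rw [hb]; exact h1
        · exact (hag v hvF v1 hv1).1 b hb
      · simp only at h
        subst h
        by_cases hb : b = f'
        · rw [hb]; exact h2
        · exact (hag v hvF v1 hv1).2.1 b hb
    · intro v hv
      obtain ⟨hvF, hve⟩ := Finset.mem_filter.1 hv
      obtain ⟨h1, h2⟩ := Prod.mk.inj hve
      refine (hF v hvF).1.third hT1 hij hil hjl ?_ ?_
      · rw [hAi v hvF, hAi v1 hv1, h1]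
      · rw [hBj v hvF, hBj v1 hv1, h2]
  have hcard : F.card ≤ (F.image φ).card * dmax N ^ 4 := by
    rw [Finset.card_eq_sum_card_fiberwise (f := φ) (t := F.image φ)
      (fun v hv => Finset.mem_coe.2 (Finset.mem_image_of_mem _ hv))]
    calc _ ≤ ∑ _z ∈ F.image φ, dmax N ^ 4 := Finset.sum_le_sum hd4
      _ = _ := by rw [Finset.sum_const, smul_eq_mul]
  have hQlow : (2 : ℝ) ^ (∑ g ∈ M, (4 + (g : ℕ)) * k (l, g)) ≤ (Q : ℝ) := by
    have : 2 ^ (∑ g ∈ M, (4 + (g : ℕ)) * k (l, g)) ≤ Q := by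
      rw [hQdef, ← Finset.prod_pow_eq_pow_sum]
      refine Finset.prod_le_prod' fun g _ => ?_
      rw [mul_comm, pow_mul]
      refine Nat.pow_le_pow_left ?_ _
      rw [← (hF v0 hv0).2 (l, g)]
      exact Nat.pow_log_le_self 2 (hpos0 _).ne'
    exact_mod_cast this
  have hQpos : (0 : ℝ) < Q := by exact_mod_cast hQ1
  have hfrac : 256 * (2 : ℝ) ^ (p * k (i, f) + q * k (j, f')) / Q ≤
      256 * (2 : ℝ) ^ (p * k (i, f) + q * k (j, f')) / 2 ^ (∑ g ∈ M, (4 + (g : ℕ)) * k (l, g)) := by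
    exact div_le_div_of_nonneg_left (by positivity) (by positivity) hQlow
  calc (F.card : ℝ) ≤ ((F.image φ).card : ℝ) * (dmax N : ℝ) ^ 4 := by exact_mod_cast hcard
    _ ≤ (2 * (dmax N : ℝ) ^ 9 * (1 + 256 * 2 ^ (p * k (i, f) + q * k (j, f')) / Q)) *
        (dmax N : ℝ) ^ 4 := mul_le_mul_of_nonneg_right hZ (by positivity)
    _ ≤ (2 * (dmax N : ℝ) ^ 9 * (1 + 256 * 2 ^ (p * k (i, f) + q * k (j, f')) /
          2 ^ (∑ g ∈ M, (4 + (g : ℕ)) * k (l, g)))) * (dmax N : ℝ) ^ 4 := by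
        gcongr
    _ = _ := by ring

theorem L4 (N : ℕ) (k : Fin 3 × Fin 4 → ℕ) (T : Finset (Fin 3 × Fin 4 → ℕ))
    (hT : ∀ v ∈ T, Tup4 N v ∧ ∀ x, Nat.log 2 (v x) = k x) (i j l : Fin 3) (hij : i ≠ j)
    (hil : i ≠ l) (hjl : j ≠ l) (f f' : Fin 4) (e p q : ℕ) (he : 1 ≤ e) (he7 : e ≤ 7)
    (hp : 1 ≤ p) (hq : 1 ≤ q) (hpq : p + q ≤ 5) (hq3 : q ≤ 3) (hf : 4 + (f : ℕ) = e * p)
    (hf' : 4 + (f' : ℕ) = e * q) (M : Finset (Fin 4)) :
    (T.card : ℝ) ≤ 2 * (dmax N : ℝ) ^ 13 *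
      (1 + 256 * 2 ^ (p * k (i, f) + q * k (j, f')) / 2 ^ (∑ g ∈ M, (4 + (g : ℕ)) * k (l, g))) *
      2 ^ (∑ g ∈ Finset.univ.erase f, k (i, g) + ∑ g ∈ Finset.univ.erase f', k (j, g) +
        ∑ g ∈ M, k (l, g)) := by
  classical
  set K1 : Finset (Fin 3 × Fin 4) := (Finset.univ.erase f).image (fun g => (i, g)) with hK1
  set K2 : Finset (Fin 3 × Fin 4) := (Finset.univ.erase f').image (fun g => (j, g)) with hK2
  set K3 : Finset (Fin 3 × Fin 4) := M.image (fun g => (l, g)) with hK3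
  have hinj : ∀ a : Fin 3, Function.Injective (fun g : Fin 4 => (a, g)) :=
    fun a g g' h => (Prod.mk.inj h).2
  have h12 : Disjoint K1 K2 := by
    rw [Finset.disjoint_left]
    intro x hx hx'
    obtain ⟨g, _, rfl⟩ := Finset.mem_image.1 hx
    obtain ⟨g', _, h⟩ := Finset.mem_image.1 hx'
    exact hij (Prod.mk.inj h).1.symm
  have h123 : Disjoint (K1 ∪ K2) K3 := by
    rw [Finset.disjoint_left]
    intro x hx hx'
    obtain ⟨g', _, rfl⟩ := Finset.mem_image.1 hx'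
    rcases Finset.mem_union.1 hx with h | h
    · obtain ⟨g, _, h⟩ := Finset.mem_image.1 h
      exact hil (Prod.mk.inj h).1
    · obtain ⟨g, _, h⟩ := Finset.mem_image.1 h
      exact hjl (Prod.mk.inj h).1
  have hsum : ∑ x ∈ K1 ∪ K2 ∪ K3, k x = ∑ g ∈ Finset.univ.erase f, k (i, g) +
      ∑ g ∈ Finset.univ.erase f', k (j, g) + ∑ g ∈ M, k (l, g) := by
    rw [Finset.sum_union h123, Finset.sum_union h12, hK1, hK2, hK3,
      Finset.sum_image (fun a _ b _ h => hinj i h), Finset.sum_image (fun a _ b _ h => hinj j h),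
      Finset.sum_image (fun a _ b _ h => hinj l h)]
  rw [← hsum]
  refine fiber_bound (K1 ∪ K2 ∪ K3) k T (fun v hv x => ⟨(hT v hv).1.1 x, (hT v hv).2 x⟩) _ ?_
  intro w
  refine L4fib N k _ (fun v hv => hT v (Finset.mem_filter.1 hv).1) i j l hij hil hjl f f' e p q he
    he7 hp hq hpq hq3 hf hf' M ?_
  intro v hv v' hv'
  have h1 := (Finset.mem_filter.1 hv).2
  have h2 := (Finset.mem_filter.1 hv').2
  have hx : ∀ x ∈ K1 ∪ K2 ∪ K3, v x = v' x := by
    intro x hx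
    have h3 : mask (K1 ∪ K2 ∪ K3) v x = mask (K1 ∪ K2 ∪ K3) v' x := by rw [h1, h2]
    simpa only [mask, if_pos hx] using h3
  refine ⟨fun g hg => hx _ ?_, fun g hg => hx _ ?_, fun g hg => hx _ ?_⟩
  · exact Finset.mem_union_left _ (Finset.mem_union_left _
      (Finset.mem_image_of_mem _ (Finset.mem_erase.2 ⟨hg, Finset.mem_univ _⟩)))
  · exact Finset.mem_union_left _ (Finset.mem_union_right _
      (Finset.mem_image_of_mem _ (Finset.mem_erase.2 ⟨hg, Finset.mem_univ _⟩)))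
  · exact Finset.mem_union_right _ (Finset.mem_image_of_mem _ hg)

end Pool.H65.PF
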