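import Mathlib

set_option autoImplicit false

/-!
# Module LP4: the linear optimisation for r = 4 (value 13/36)

`core` is a machine generated branch and bound certificate (102 leaves, each by `linarith`), with
twelve variables (a, b, c: the three numbers; indices 0, 1, 2, 3: exponents 4, 5, 6, 7); `lp4` is
the form used by module Box4.
-/

namespace Pool.H65.PF

namespace LP4

theorem core (a0 a1 a2 a3 b0 b1 b2 b3 c0 c1 c2 c3 L t : ℝ)
    (na0 : 0 ≤ a0)    (na1 : 0 ≤ a1)    (na2 : 0 ≤ a2)    (na3 : 0 ≤ a3)    (nb0 : 0 ≤ b0)    (nb1 : 0 ≤ b1)    (nb2 : 0 ≤ b2)    (nb3 : 0 ≤ b3)    (nc0 : 0 ≤ c0)    (nc1 : 0 ≤ c1)    (nc2 : 0 ≤ c2)    (nc3 : 0 ≤ c3)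
    (hA : 4 * a0 + 5 * a1 + 6 * a2 + 7 * a3 ≤ L)
    (hB : 4 * b0 + 5 * b1 + 6 * b2 + 7 * b3 ≤ L)
    (hC : 4 * c0 + 5 * c1 + 6 * c2 + 7 * c3 ≤ L)
    (p01 : t ≤ a0 + a1 + a2 + a3 + b0 + b1 + b2 + b3)
    (p02 : t ≤ a0 + a1 + a2 + a3 + c0 + c1 + c2 + c3)
    (p12 : t ≤ b0 + b1 + b2 + b3 + c0 + c1 + c2 + c3)
    (s0 : t ≤ a1 + a2 + a3 + b1 + b2 + b3 + c0 ∨ t ≤ a0 + a1 + a2 + a3 + b0 + b1 + b2 + b3 - 3 * c0)
    (s1 : t ≤ a1 + b1 + b2 + b3 + c1 + c2 + c3 ∨ t ≤ -4 * a1 + b0 + b1 + b2 + b3 + c0 + c1 + c2 + c3)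
    (s2 : t ≤ a0 + a2 + a3 + b0 + b2 + b3 + c0 ∨ t ≤ a0 + a1 + a2 + a3 + b0 + b1 + b2 + b3 - 3 * c0)
    (s3 : t ≤ a1 + a2 + a3 + b0 + b1 + b3 + c0 + c1 ∨ t ≤ 2 * a0 + a1 + a2 + a3 + b0 + b1 + 3 * b2 + b3 - 3 * c0 - 4 * c1)
    (s4 : t ≤ a1 + b0 + b1 + b3 + c1 + c2 + c3 ∨ t ≤ -4 * a1 + b0 + b1 + 3 * b2 + b3 + 2 * c0 + c1 + c2 + c3)
    (s5 : t ≤ a0 + a2 + a3 + b0 + c0 + c2 + c3 ∨ t ≤ a0 + a1 + a2 + a3 - 3 * b0 + c0 + c1 + c2 + c3)
    (s6 : t ≤ a0 + a2 + a3 + b0 + b2 + c0 + c2 + c3 ∨ t ≤ a0 + a1 + a2 + a3 - 3 * b0 - 5 * b2 + c0 + c1 + c2 + c3)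
    (s7 : t ≤ a0 + a2 + a3 + b3 + c0 + c2 + c3 ∨ t ≤ a0 + a1 + a2 + a3 - 6 * b3 + c0 + c1 + c2 + c3)
    (s8 : t ≤ a0 + a1 + a2 + b0 + b1 + b2 + c0 ∨ t ≤ a0 + a1 + a2 + a3 + b0 + b1 + b2 + b3 - 3 * c0)
    (s9 : t ≤ a1 + a2 + a3 + b1 + b2 + b3 + c2 ∨ t ≤ a0 + a1 + a2 + a3 + b0 + b1 + b2 + b3 - 5 * c2)
    (s10 : t ≤ a0 + a2 + a3 + b0 + b2 + b3 + c1 ∨ t ≤ a0 + a1 + a2 + a3 + b0 + b1 + b2 + b3 - 4 * c1)
    (s11 : t ≤ a1 + a2 + b0 + b1 + b3 + c1 + c2 + c3 ∨ t ≤ -4 * a1 - 5 * a2 + b0 + b1 + 3 * b2 + b3 + 2 * c0 + c1 + c2 + c3)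
    (s12 : t ≤ a1 + a3 + b0 + b1 + b3 + c1 + c2 + c3 ∨ t ≤ -4 * a1 - 6 * a3 + b0 + b1 + 3 * b2 + b3 + 2 * c0 + c1 + c2 + c3)
    (s13 : t ≤ a1 + a2 + a3 + b1 + c1 + c2 + c3 ∨ t ≤ a0 + a1 + a2 + a3 - 4 * b1 + c0 + c1 + c2 + c3)
    (s14 : t ≤ a0 + a1 + a3 + b0 + b1 + b3 + c1 ∨ t ≤ a0 + a1 + a2 + a3 + b0 + b1 + b2 + b3 - 4 * c1)
    (s15 : t ≤ a1 + a2 + a3 + b0 + b1 + c1 + c2 + c3 ∨ t ≤ a0 + a1 + a2 + a3 - 3 * b0 - 4 * b1 + c0 + c1 + c2 + c3)
    (s16 : t ≤ a1 + a2 + a3 + b1 + b3 + c1 + c2 + c3 ∨ t ≤ a0 + a1 + a2 + a3 - 4 * b1 - 6 * b3 + c0 + c1 + c2 + c3)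
    (s17 : t ≤ a1 + a2 + a3 + b0 + b1 + b3 + c1 + c2 + c3 ∨ t ≤ a0 + a1 + a2 + a3 - 3 * b0 - 4 * b1 - 6 * b3 + c0 + c1 + c2 + c3)
    (s18 : t ≤ a0 + b0 + b1 + b3 + c0 + c1 + c3 ∨ t ≤ -3 * a0 + b0 + b1 + b2 + b3 + c0 + c1 + c2 + c3)
    (s19 : t ≤ a0 + a2 + a3 + b2 + c0 + c2 + c3 ∨ t ≤ a0 + a1 + a2 + a3 - 5 * b2 + c0 + c1 + c2 + c3)
    (s20 : t ≤ a2 + b0 + b2 + b3 + c0 + c2 + c3 ∨ t ≤ -5 * a2 + b0 + b1 + b2 + b3 + c0 + c1 + c2 + c3)
    (s21 : t ≤ a0 + a2 + a3 + b0 + b2 + b3 + c2 ∨ t ≤ a0 + a1 + a2 + a3 + b0 + b1 + b2 + b3 - 5 * c2)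
    (s22 : t ≤ a0 + a2 + a3 + b0 + b2 + b3 + c3 ∨ t ≤ a0 + a1 + a2 + a3 + b0 + b1 + b2 + b3 - 6 * c3)
    (s23 : t ≤ a0 + a1 + a3 + b0 + c0 + c1 + c3 ∨ t ≤ a0 + a1 + a2 + a3 - 3 * b0 + c0 + c1 + c2 + c3)
    (s24 : t ≤ a0 + a1 + a3 + b2 + c0 + c1 + c3 ∨ t ≤ a0 + a1 + a2 + a3 - 5 * b2 + c0 + c1 + c2 + c3)
    (s25 : t ≤ a0 + a1 + a3 + b3 + c0 + c1 + c3 ∨ t ≤ a0 + a1 + a2 + a3 - 6 * b3 + c0 + c1 + c2 + c3)
    (s26 : t ≤ a0 + a1 + a3 + b1 + c1 + c2 + c3 ∨ t ≤ a0 + a1 + 3 * a2 + a3 - 4 * b1 + 2 * c0 + c1 + c2 + c3)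
    (s27 : t ≤ a0 + a1 + a3 + b0 + b1 + b3 + c0 ∨ t ≤ a0 + a1 + a2 + a3 + b0 + b1 + b2 + b3 - 3 * c0)
    (s28 : t ≤ a1 + a3 + b1 + b2 + b3 + c1 + c2 + c3 ∨ t ≤ -4 * a1 - 6 * a3 + b0 + b1 + b2 + b3 + c0 + c1 + c2 + c3)
    (s29 : t ≤ a0 + a1 + b1 + b2 + b3 + c1 + c2 + c3 ∨ t ≤ -3 * a0 - 4 * a1 + b0 + b1 + b2 + b3 + c0 + c1 + c2 + c3)
    (s30 : t ≤ a0 + a1 + a3 + b1 + b2 + b3 + c1 + c2 + c3 ∨ t ≤ -3 * a0 - 4 * a1 - 6 * a3 + b0 + b1 + b2 + b3 + c0 + c1 + c2 + c3)
    (s31 : t ≤ a0 + a1 + a3 + b1 + c0 + c1 + c3 ∨ t ≤ a0 + a1 + a2 + a3 - 4 * b1 + c0 + c1 + c2 + c3)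
    (s32 : t ≤ a3 + b0 + b2 + b3 + c0 + c2 + c3 ∨ t ≤ -6 * a3 + b0 + b1 + b2 + b3 + c0 + c1 + c2 + c3)
    (s33 : t ≤ a1 + a2 + a3 + b0 + c1 + c2 + c3 ∨ t ≤ a0 + a1 + a2 + a3 - 3 * b0 + c0 + c1 + c2 + c3)
    (s34 : t ≤ a1 + a2 + a3 + b1 + b2 + b3 + c2 + c3 ∨ t ≤ a0 + a1 + a2 + a3 + b0 + b1 + b2 + b3 - 5 * c2 - 6 * c3)
    (s35 : t ≤ a3 + b1 + b2 + b3 + c1 + c2 + c3 ∨ t ≤ -6 * a3 + b0 + b1 + b2 + b3 + c0 + c1 + c2 + c3)
    (s36 : t ≤ a2 + b1 + b2 + b3 + c1 + c2 + c3 ∨ t ≤ -5 * a2 + b0 + b1 + b2 + b3 + c0 + c1 + c2 + c3)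
    (s37 : t ≤ a1 + a2 + a3 + b2 + c1 + c2 + c3 ∨ t ≤ a0 + a1 + a2 + a3 - 5 * b2 + c0 + c1 + c2 + c3)
    (s38 : t ≤ a1 + a2 + a3 + b3 + c1 + c2 + c3 ∨ t ≤ a0 + a1 + a2 + a3 - 6 * b3 + c0 + c1 + c2 + c3)
    (s39 : t ≤ a1 + a2 + a3 + b1 + b2 + b3 + c1 + c2 + c3 ∨ t ≤ a0 + a1 + a2 + a3 - 4 * b1 - 5 * b2 - 6 * b3 + c0 + c1 + c2 + c3)
    (s40 : t ≤ a1 + a2 + a3 + b1 + b2 + b3 + c1 ∨ t ≤ a0 + a1 + a2 + a3 + b0 + b1 + b2 + b3 - 4 * c1)
    (s41 : t ≤ a0 + a2 + a3 + b1 + c0 + c2 + c3 ∨ t ≤ a0 + a1 + a2 + a3 - 4 * b1 + c0 + c1 + c2 + c3)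
    (s42 : t ≤ a0 + a1 + a3 + b1 + b2 + b3 + c1 ∨ t ≤ a0 + a1 + 3 * a2 + a3 + 2 * b0 + b1 + b2 + b3 - 4 * c1)
    (s43 : t ≤ a0 + b0 + b2 + b3 + c0 + c2 + c3 ∨ t ≤ -3 * a0 + b0 + b1 + b2 + b3 + c0 + c1 + c2 + c3)
    (s44 : t ≤ a1 + b0 + b2 + b3 + c0 + c2 + c3 ∨ t ≤ -4 * a1 + b0 + b1 + b2 + b3 + c0 + c1 + c2 + c3)
    (s45 : t ≤ a1 + a2 + a3 + b0 + b1 + b3 + c1 ∨ t ≤ 2 * a0 + a1 + a2 + a3 + b0 + b1 + 3 * b2 + b3 - 4 * c1)
    (s46 : t ≤ a1 + a2 + a3 + b1 + c0 + c1 + c3 ∨ t ≤ 2 * a0 + a1 + a2 + a3 - 4 * b1 + c0 + c1 + 3 * c2 + c3)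
    (s47 : t ≤ a1 + b1 + b2 + b3 + c0 + c1 + c3 ∨ t ≤ -4 * a1 + 2 * b0 + b1 + b2 + b3 + c0 + c1 + 3 * c2 + c3)
    (s48 : t ≤ a1 + a3 + b1 + b2 + b3 + c0 + c1 + c3 ∨ t ≤ -4 * a1 - 6 * a3 + 2 * b0 + b1 + b2 + b3 + c0 + c1 + 3 * c2 + c3)
    (s49 : t ≤ a1 + a2 + a3 + b1 + b2 + b3 + c0 + c1 ∨ t ≤ a0 + a1 + a2 + a3 + b0 + b1 + b2 + b3 - 3 * c0 - 4 * c1)
    (s50 : t ≤ a1 + a2 + a3 + b1 + b2 + b3 + c0 + c3 ∨ t ≤ a0 + a1 + a2 + a3 + b0 + b1 + b2 + b3 - 3 * c0 - 6 * c3)
    (s51 : t ≤ a1 + a2 + a3 + b1 + b2 + b3 + c0 + c1 + c3 ∨ t ≤ a0 + a1 + a2 + a3 + b0 + b1 + b2 + b3 - 3 * c0 - 4 * c1 - 6 * c3)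
    (s52 : t ≤ a1 + a2 + a3 + b0 + b1 + c0 + c1 + c3 ∨ t ≤ 2 * a0 + a1 + a2 + a3 - 3 * b0 - 4 * b1 + c0 + c1 + 3 * c2 + c3)
    (s53 : t ≤ a1 + b0 + b1 + b3 + c0 + c1 + c3 ∨ t ≤ -4 * a1 + b0 + b1 + b2 + b3 + c0 + c1 + c2 + c3)
    (s54 : t ≤ a2 + b0 + b1 + b3 + c0 + c1 + c3 ∨ t ≤ -5 * a2 + b0 + b1 + b2 + b3 + c0 + c1 + c2 + c3)
    (s55 : t ≤ a3 + b0 + b1 + b3 + c0 + c1 + c3 ∨ t ≤ -6 * a3 + b0 + b1 + b2 + b3 + c0 + c1 + c2 + c3)
    (s56 : t ≤ a1 + a2 + a3 + b1 + b2 + b3 + c3 ∨ t ≤ a0 + a1 + a2 + a3 + b0 + b1 + b2 + b3 - 6 * c3)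
    (s57 : t ≤ a0 + a2 + a3 + b0 + b2 + b3 + c0 + c1 + c2 ∨ t ≤ a0 + a1 + a2 + a3 + b0 + b1 + b2 + b3 - 3 * c0 - 4 * c1 - 5 * c2)
    (s58 : t ≤ a0 + b1 + b2 + b3 + c1 + c2 + c3 ∨ t ≤ -3 * a0 + b0 + b1 + b2 + b3 + c0 + c1 + c2 + c3)
    (s59 : t ≤ a0 + a1 + a2 + b0 + c0 + c1 + c2 ∨ t ≤ a0 + a1 + a2 + a3 - 3 * b0 + c0 + c1 + c2 + c3)
    (s60 : t ≤ a0 + a1 + a2 + b1 + c0 + c1 + c2 ∨ t ≤ a0 + a1 + a2 + a3 - 4 * b1 + c0 + c1 + c2 + c3)
    (s61 : t ≤ a1 + a2 + a3 + b1 + b2 + b3 + c0 + c1 + c2 ∨ t ≤ a0 + a1 + a2 + a3 + b0 + b1 + b2 + b3 - 3 * c0 - 4 * c1 - 5 * c2)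
    : t ≤ 13 / 36 * L := by
  rcases s0 with h1 | h1
  · rcases s1 with h2 | h2
    · rcases s2 with h3 | h3
      · rcases s3 with h4 | h4
        · rcases s4 with h5 | h5
          · rcases s5 with h6 | h6
            · linarith only [hA, hB, hC, h2, h3, h5, h6, na0, na1, na2, na3, nb0, nb1, nb2, nb3, nc0, nc1, nc2, nc3]
            · rcases s6 with h7 | h7
              · linarith only [hA, hB, hC, h2, h3, h4, h5, h6, h7, na0, na1, na2, na3, nb0, nb1, nb2, nb3, nc0, nc1, nc2, nc3]
              · rcases s7 with h8 | h8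
                · rcases s8 with h9 | h9
                  · rcases s9 with h10 | h10
                    · linarith only [hA, hB, hC, p01, h2, h3, h5, h7, h8, h10, na0, na1, na2, na3, nb0, nb1, nb2, nb3, nc0, nc1, nc2, nc3]
                    · rcases s10 with h11 | h11
                      · linarith only [hA, hB, hC, h1, h2, h5, h8, h9, h11, na0, na1, na2, na3, nb0, nb1, nb2, nb3, nc0, nc1, nc2, nc3]
                      · linarith only [hA, hB, hC, h2, h3, h5, h8, h10, h11, na0, na1, na2, na3, nb0, nb1, nb2, nb3, nc0, nc1, nc2, nc3]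
                  · linarith only [hA, hB, hC, h1, h3, h7, h8, h9, na0, na1, na2, na3, nb0, nb1, nb2, nb3, nc0, nc1, nc2, nc3]
                · linarith only [hA, hB, hC, h2, h3, h5, h7, h8, na0, na1, na2, na3, nb0, nb1, nb2, nb3, nc0, nc1, nc2, nc3]
          · rcases s11 with h6 | h6
            · linarith only [hA, hB, hC, h1, h2, h3, h5, h6, na0, na1, na2, na3, nb0, nb1, nb2, nb3, nc0, nc1, nc2, nc3]
            · rcases s12 with h7 | h7
              · linarith only [hA, hB, hC, h1, h2, h3, h5, h7, na0, na1, na2, na3, nb0, nb1, nb2, nb3, nc0, nc1, nc2, nc3]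
              · rcases s13 with h8 | h8
                · linarith only [hA, hB, hC, h1, h2, h3, h6, h7, h8, na0, na1, na2, na3, nb0, nb1, nb2, nb3, nc0, nc1, nc2, nc3]
                · rcases s14 with h9 | h9
                  · rcases s15 with h10 | h10
                    · linarith only [hA, hB, hC, h1, h2, h6, h7, h8, h9, h10, na0, na1, na2, na3, nb0, nb1, nb2, nb3, nc0, nc1, nc2, nc3]
                    · rcases s16 with h11 | h11
                      · linarith only [hA, hB, hC, h1, h2, h6, h7, h8, h9, h11, na0, na1, na2, na3, nb0, nb1, nb2, nb3, nc0, nc1, nc2, nc3]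
                      · rcases s17 with h12 | h12
                        · linarith only [hA, hB, hC, h1, h6, h7, h9, h10, h11, h12, na0, na1, na2, na3, nb0, nb1, nb2, nb3, nc0, nc1, nc2, nc3]
                        · linarith only [hA, hB, hC, h4, h5, h7, h9, h10, h12, na0, na1, na2, na3, nb0, nb1, nb2, nb3, nc0, nc1, nc2, nc3]
                  · linarith only [hA, hB, hC, h2, h4, h5, h6, h7, h9, na0, na1, na2, na3, nb0, nb1, nb2, nb3, nc0, nc1, nc2, nc3]
        · rcases s18 with h5 | h5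
          · rcases s13 with h6 | h6
            · linarith only [hA, hB, hC, h1, h2, h3, h4, h5, h6, na0, na1, na2, na3, nb0, nb1, nb2, nb3, nc0, nc1, nc2, nc3]
            · linarith only [hA, hB, hC, p12, h1, h2, h4, h5, h6, na0, na1, na2, na3, nb0, nb1, nb2, nb3, nc0, nc1, nc2, nc3]
          · linarith only [hA, hB, hC, p01, h2, h3, h4, h5, na0, na1, na2, na3, nb0, nb1, nb2, nb3, nc0, nc1, nc2, nc3]
      · rcases s10 with h4 | h4
        · rcases s19 with h5 | h5
          · linarith only [hA, hB, hC, h1, h3, h4, h5, na0, na1, na2, na3, nb0, nb1, nb2, nb3, nc0, nc1, nc2, nc3]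
          · rcases s20 with h6 | h6
            · linarith only [hA, hB, hC, h1, h3, h4, h5, h6, na0, na1, na2, na3, nb0, nb1, nb2, nb3, nc0, nc1, nc2, nc3]
            · linarith only [hA, hB, hC, h1, h3, h4, h5, h6, na0, na1, na2, na3, nb0, nb1, nb2, nb3, nc0, nc1, nc2, nc3]
        · rcases s21 with h5 | h5
          · linarith only [hA, hB, hC, p02, p12, h1, h3, h5, na0, na1, na2, na3, nb0, nb1, nb2, nb3, nc0, nc1, nc2, nc3]
          · rcases s22 with h6 | h6
            · linarith only [hA, hB, hC, p02, p12, h1, h3, h4, h6, na0, na1, na2, na3, nb0, nb1, nb2, nb3, nc0, nc1, nc2, nc3]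
            · linarith only [hA, hB, p02, p12, h1, h3, h4, h5, h6, na0, na1, na2, na3, nb0, nb1, nb2, nb3, nc0, nc1, nc2, nc3]
    · rcases s13 with h3 | h3
      · rcases s20 with h4 | h4
        · rcases s9 with h5 | h5
          · rcases s23 with h6 | h6
            · linarith only [hA, hB, hC, h1, h2, h3, h4, h5, h6, na0, na1, na2, na3, nb0, nb1, nb2, nb3, nc0, nc1, nc2, nc3]
            · rcases s21 with h7 | h7
              · rcases s24 with h8 | h8
                · linarith only [hA, hB, hC, p01, h1, h2, h3, h4, h7, h8, na0, na1, na2, na3, nb0, nb1, nb2, nb3, nc0, nc1, nc2, nc3]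
                · rcases s25 with h9 | h9
                  · linarith only [hA, hB, hC, p01, h2, h3, h4, h5, h7, h9, na0, na1, na2, na3, nb0, nb1, nb2, nb3, nc0, nc1, nc2, nc3]
                  · linarith only [hA, hB, hC, h3, h4, h6, h7, h8, h9, na0, na1, na2, na3, nb0, nb1, nb2, nb3, nc0, nc1, nc2, nc3]
              · rcases s26 with h8 | h8
                · linarith only [hA, hB, hC, h2, h4, h5, h6, h7, h8, na0, na1, na2, na3, nb0, nb1, nb2, nb3, nc0, nc1, nc2, nc3]
                · linarith only [hA, hB, hC, h2, h3, h5, h7, h8, na0, na1, na2, na3, nb0, nb1, nb2, nb3, nc0, nc1, nc2, nc3]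
          · rcases s27 with h6 | h6
            · rcases s10 with h7 | h7
              · rcases s28 with h8 | h8
                · linarith only [hA, hB, hC, h1, h2, h3, h4, h5, h6, h7, h8, na0, na1, na2, na3, nb0, nb1, nb2, nb3, nc0, nc1, nc2, nc3]
                · rcases s29 with h9 | h9
                  · linarith only [hA, hB, hC, h1, h2, h3, h4, h5, h6, h7, h9, na0, na1, na2, na3, nb0, nb1, nb2, nb3, nc0, nc1, nc2, nc3]
                  · rcases s30 with h10 | h10
                    · linarith only [hA, hB, hC, h4, h5, h6, h7, h8, h9, h10, na0, na1, na2, na3, nb0, nb1, nb2, nb3, nc0, nc1, nc2, nc3]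
                    · rcases s14 with h11 | h11
                      · rcases s31 with h12 | h12
                        · linarith only [hB, hC, h6, h9, h10, h11, h12, na0, na1, na2, na3, nb0, nb1, nb2, nb3, nc0, nc1, nc2, nc3]
                        · linarith only [hA, hB, hC, h1, h2, h3, h6, h8, h12, na0, na1, na2, na3, nb0, nb1, nb2, nb3, nc0, nc1, nc2, nc3]
                      · linarith only [hA, hB, hC, h1, h3, h5, h6, h7, h11, na0, na1, na2, na3, nb0, nb1, nb2, nb3, nc0, nc1, nc2, nc3]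
              · rcases s22 with h8 | h8
                · linarith only [hA, hB, hC, p02, h1, h3, h6, h8, na0, na1, na2, na3, nb0, nb1, nb2, nb3, nc0, nc1, nc2, nc3]
                · rcases s26 with h9 | h9
                  · linarith only [hA, hB, hC, h2, h3, h4, h5, h7, h8, h9, na0, na1, na2, na3, nb0, nb1, nb2, nb3, nc0, nc1, nc2, nc3]
                  · linarith only [hA, hB, hC, h3, h5, h7, h8, h9, na0, na1, na2, na3, nb0, nb1, nb2, nb3, nc0, nc1, nc2, nc3]
            · linarith only [hA, hB, hC, p02, h1, h2, h4, h5, h6, na0, na1, na2, na3, nb0, nb1, nb2, nb3, nc0, nc1, nc2, nc3]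
        · rcases s32 with h5 | h5
          · rcases s33 with h6 | h6
            · rcases s9 with h7 | h7
              · linarith only [hA, hB, hC, p02, h1, h2, h4, h6, h7, na0, na1, na2, na3, nb0, nb1, nb2, nb3, nc0, nc1, nc2, nc3]
              · rcases s34 with h8 | h8
                · linarith only [hA, hB, hC, p02, h2, h4, h5, h6, h7, h8, na0, na1, na2, na3, nb0, nb1, nb2, nb3, nc0, nc1, nc2, nc3]
                · rcases s8 with h9 | h9
                  · rcases s10 with h10 | h10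
                    · rcases s35 with h11 | h11
                      · linarith only [hA, hB, hC, h5, h6, h9, h10, h11, na0, na1, na2, na3, nb0, nb1, nb2, nb3, nc0, nc1, nc2, nc3]
                      · linarith only [hA, hB, hC, h1, h2, h3, h4, h5, h7, h11, na0, na1, na2, na3, nb0, nb1, nb2, nb3, nc0, nc1, nc2, nc3]
                    · linarith only [hA, hB, hC, h2, h3, h4, h6, h7, h8, h10, na0, na1, na2, na3, nb0, nb1, nb2, nb3, nc0, nc1, nc2, nc3]
                  · linarith only [hA, hB, h1, h5, h7, h8, h9, na0, na1, na2, na3, nb0, nb1, nb2, nb3, nc0, nc1, nc2, nc3]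
            · linarith only [hA, hB, hC, p01, h2, h3, h5, h6, na0, na1, na2, na3, nb0, nb1, nb2, nb3, nc0, nc1, nc2, nc3]
          · linarith only [hB, hC, h1, h2, h3, h4, h5, na0, na1, na2, na3, nb0, nb1, nb2, nb3, nc0, nc1, nc2, nc3]
      · rcases s36 with h4 | h4
        · rcases s27 with h5 | h5
          · linarith only [hA, hB, hC, p01, h1, h3, h4, h5, na0, na1, na2, na3, nb0, nb1, nb2, nb3, nc0, nc1, nc2, nc3]
          · linarith only [hA, hB, hC, h1, h2, h3, h5, na0, na1, na2, na3, nb0, nb1, nb2, nb3, nc0, nc1, nc2, nc3]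
        · rcases s37 with h5 | h5
          · linarith only [hA, hB, hC, p01, h1, h2, h4, h5, na0, na1, na2, na3, nb0, nb1, nb2, nb3, nc0, nc1, nc2, nc3]
          · rcases s35 with h6 | h6
            · linarith only [hA, hB, hC, p01, h1, h2, h3, h5, h6, na0, na1, na2, na3, nb0, nb1, nb2, nb3, nc0, nc1, nc2, nc3]
            · rcases s38 with h7 | h7
              · linarith only [hB, hC, h1, h2, h4, h6, h7, na0, na1, na2, na3, nb0, nb1, nb2, nb3, nc0, nc1, nc2, nc3]
              · rcases s39 with h8 | h8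
                · linarith only [hA, hB, hC, h1, h2, h3, h4, h5, h6, h7, h8, na0, na1, na2, na3, nb0, nb1, nb2, nb3, nc0, nc1, nc2, nc3]
                · linarith only [hA, hB, hC, h1, h2, h3, h4, h6, h8, na0, na1, na2, na3, nb0, nb1, nb2, nb3, nc0, nc1, nc2, nc3]
  · rcases s40 with h2 | h2
    · rcases s5 with h3 | h3
      · rcases s41 with h4 | h4
        · rcases s23 with h5 | h5
          · rcases s9 with h6 | h6
            · linarith only [hA, hB, hC, p02, h1, h2, h3, h4, h5, h6, na0, na1, na2, na3, nb0, nb1, nb2, nb3, nc0, nc1, nc2, nc3]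
            · linarith only [hA, hB, hC, h1, h2, h3, h4, h5, h6, na0, na1, na2, na3, nb0, nb1, nb2, nb3, nc0, nc1, nc2, nc3]
          · linarith only [hA, hB, hC, h1, h2, h3, h5, na0, na1, na2, na3, nb0, nb1, nb2, nb3, nc0, nc1, nc2, nc3]
        · rcases s19 with h5 | h5
          · linarith only [hA, hB, hC, p02, h1, h2, h3, h5, na0, na1, na2, na3, nb0, nb1, nb2, nb3, nc0, nc1, nc2, nc3]
          · rcases s7 with h6 | h6
            · linarith only [hA, hB, hC, p02, h1, h2, h3, h6, na0, na1, na2, na3, nb0, nb1, nb2, nb3, nc0, nc1, nc2, nc3]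
            · rcases s42 with h7 | h7
              · linarith only [hA, hB, hC, h2, h3, h4, h5, h6, h7, na0, na1, na2, na3, nb0, nb1, nb2, nb3, nc0, nc1, nc2, nc3]
              · linarith only [hA, hB, hC, h1, h2, h4, h5, h6, h7, na0, na1, na2, na3, nb0, nb1, nb2, nb3, nc0, nc1, nc2, nc3]
      · rcases s43 with h4 | h4
        · rcases s44 with h5 | h5
          · linarith only [hA, hB, hC, p12, h1, h3, h4, h5, na0, na1, na2, na3, nb0, nb1, nb2, nb3, nc0, nc1, nc2, nc3]
          · rcases s20 with h6 | h6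
            · linarith only [hA, hB, hC, p12, h1, h3, h4, h6, na0, na1, na2, na3, nb0, nb1, nb2, nb3, nc0, nc1, nc2, nc3]
            · rcases s32 with h7 | h7
              · linarith only [hA, hB, hC, p12, h1, h2, h4, h7, na0, na1, na2, na3, nb0, nb1, nb2, nb3, nc0, nc1, nc2, nc3]
              · rcases s45 with h8 | h8
                · linarith only [hA, hB, hC, h2, h4, h5, h6, h7, h8, na0, na1, na2, na3, nb0, nb1, nb2, nb3, nc0, nc1, nc2, nc3]
                · linarith only [hA, hB, hC, h1, h2, h5, h6, h7, h8, na0, na1, na2, na3, nb0, nb1, nb2, nb3, nc0, nc1, nc2, nc3]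
        · rcases s10 with h5 | h5
          · rcases s20 with h6 | h6
            · linarith only [hA, hB, hC, h1, h3, h4, h5, h6, na0, na1, na2, na3, nb0, nb1, nb2, nb3, nc0, nc1, nc2, nc3]
            · rcases s19 with h7 | h7
              · linarith only [hA, hB, hC, h1, h3, h4, h5, h6, h7, na0, na1, na2, na3, nb0, nb1, nb2, nb3, nc0, nc1, nc2, nc3]
              · linarith only [hA, hB, hC, p01, h3, h4, h5, h6, h7, na0, na1, na2, na3, nb0, nb1, nb2, nb3, nc0, nc1, nc2, nc3]
          · rcases s21 with h6 | h6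
            · linarith only [hA, hB, hC, p02, h1, h3, h4, h5, h6, na0, na1, na2, na3, nb0, nb1, nb2, nb3, nc0, nc1, nc2, nc3]
            · linarith only [hA, hB, hC, p02, h1, h3, h4, h5, h6, na0, na1, na2, na3, nb0, nb1, nb2, nb3, nc0, nc1, nc2, nc3]
    · rcases s9 with h3 | h3
      · rcases s46 with h4 | h4
        · rcases s22 with h5 | h5
          · linarith only [hA, hB, hC, p02, p12, h1, h2, h3, h4, h5, na0, na1, na2, na3, nb0, nb1, nb2, nb3, nc0, nc1, nc2, nc3]
          · rcases s21 with h6 | h6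
            · linarith only [hA, hB, hC, p02, h1, h2, h4, h5, h6, na0, na1, na2, na3, nb0, nb1, nb2, nb3, nc0, nc1, nc2, nc3]
            · linarith only [hA, hB, p02, p12, h1, h2, h3, h5, h6, na0, na1, na2, na3, nb0, nb1, nb2, nb3, nc0, nc1, nc2, nc3]
        · rcases s47 with h5 | h5
          · rcases s41 with h6 | h6
            · linarith only [hA, hB, hC, p12, h1, h2, h3, h4, h5, h6, na0, na1, na2, na3, nb0, nb1, nb2, nb3, nc0, nc1, nc2, nc3]
            · rcases s19 with h7 | h7
              · linarith only [hA, hB, hC, p12, h1, h2, h3, h5, h6, h7, na0, na1, na2, na3, nb0, nb1, nb2, nb3, nc0, nc1, nc2, nc3]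
              · linarith only [hA, hB, hC, p12, h1, h2, h3, h5, h6, h7, na0, na1, na2, na3, nb0, nb1, nb2, nb3, nc0, nc1, nc2, nc3]
          · rcases s23 with h6 | h6
            · rcases s48 with h7 | h7
              · linarith only [hA, hB, hC, p02, h1, h2, h3, h4, h5, h6, h7, na0, na1, na2, na3, nb0, nb1, nb2, nb3, nc0, nc1, nc2, nc3]
              · rcases s31 with h8 | h8
                · rcases s49 with h9 | h9
                  · linarith only [hA, hB, hC, h1, h2, h4, h5, h6, h7, h8, h9, na0, na1, na2, na3, nb0, nb1, nb2, nb3, nc0, nc1, nc2, nc3]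
                  · rcases s50 with h10 | h10
                    · linarith only [hA, hB, hC, h1, h3, h4, h5, h6, h7, h8, h10, na0, na1, na2, na3, nb0, nb1, nb2, nb3, nc0, nc1, nc2, nc3]
                    · rcases s51 with h11 | h11
                      · linarith only [hA, hB, hC, h4, h5, h6, h7, h8, h9, h10, h11, na0, na1, na2, na3, nb0, nb1, nb2, nb3, nc0, nc1, nc2, nc3]
                      · rcases s52 with h12 | h12
                        · linarith only [hA, hB, hC, h4, h8, h9, h10, h11, h12, na0, na1, na2, na3, nb0, nb1, nb2, nb3, nc0, nc1, nc2, nc3]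
                        · linarith only [hA, hB, hC, h1, h3, h6, h8, h9, h10, h12, na0, na1, na2, na3, nb0, nb1, nb2, nb3, nc0, nc1, nc2, nc3]
                · rcases s24 with h9 | h9
                  · linarith only [hA, hB, hC, h1, h3, h5, h6, h7, h9, na0, na1, na2, na3, nb0, nb1, nb2, nb3, nc0, nc1, nc2, nc3]
                  · rcases s25 with h10 | h10
                    · linarith only [hA, hB, hC, h1, h3, h5, h6, h7, h10, na0, na1, na2, na3, nb0, nb1, nb2, nb3, nc0, nc1, nc2, nc3]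
                    · linarith only [hA, hB, hC, h3, h5, h8, h9, h10, na0, na1, na2, na3, nb0, nb1, nb2, nb3, nc0, nc1, nc2, nc3]
            · rcases s53 with h7 | h7
              · linarith only [hA, hB, hC, h1, h2, h3, h4, h5, h6, h7, na0, na1, na2, na3, nb0, nb1, nb2, nb3, nc0, nc1, nc2, nc3]
              · rcases s54 with h8 | h8
                · linarith only [hA, hB, hC, p12, h1, h2, h3, h4, h6, h8, na0, na1, na2, na3, nb0, nb1, nb2, nb3, nc0, nc1, nc2, nc3]
                · rcases s55 with h9 | h9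
                  · linarith only [hA, hB, hC, h1, h2, h3, h4, h6, h7, h9, na0, na1, na2, na3, nb0, nb1, nb2, nb3, nc0, nc1, nc2, nc3]
                  · linarith only [hA, hB, hC, h3, h4, h7, h8, h9, na0, na1, na2, na3, nb0, nb1, nb2, nb3, nc0, nc1, nc2, nc3]
      · rcases s56 with h4 | h4
        · rcases s57 with h5 | h5
          · linarith only [hA, hB, hC, p02, p12, h1, h2, h4, h5, na0, na1, na2, na3, nb0, nb1, nb2, nb3, nc0, nc1, nc2, nc3]
          · rcases s22 with h6 | h6
            · rcases s20 with h7 | h7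
              · rcases s58 with h8 | h8
                · linarith only [hA, hB, hC, p02, p12, h1, h4, h7, h8, na0, na1, na2, na3, nb0, nb1, nb2, nb3, nc0, nc1, nc2, nc3]
                · linarith only [hA, hB, hC, p02, h1, h4, h5, h6, h8, na0, na1, na2, na3, nb0, nb1, nb2, nb3, nc0, nc1, nc2, nc3]
              · rcases s19 with h8 | h8
                · linarith only [hA, hB, hC, p02, p12, h1, h4, h7, h8, na0, na1, na2, na3, nb0, nb1, nb2, nb3, nc0, nc1, nc2, nc3]
                · rcases s59 with h9 | h9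
                  · rcases s7 with h10 | h10
                    · linarith only [hA, hB, hC, p12, h1, h4, h7, h9, h10, na0, na1, na2, na3, nb0, nb1, nb2, nb3, nc0, nc1, nc2, nc3]
                    · rcases s60 with h11 | h11
                      · linarith only [hA, hB, hC, h4, h6, h7, h9, h11, na0, na1, na2, na3, nb0, nb1, nb2, nb3, nc0, nc1, nc2, nc3]
                      · linarith only [hA, hC, h4, h8, h10, h11, na0, na1, na2, na3, nb0, nb1, nb2, nb3, nc0, nc1, nc2, nc3]
                  · linarith only [hA, hB, hC, p12, h1, h4, h5, h6, h7, h9, na0, na1, na2, na3, nb0, nb1, nb2, nb3, nc0, nc1, nc2, nc3]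
            · linarith only [hA, hB, p02, p12, h1, h4, h5, h6, na0, na1, na2, na3, nb0, nb1, nb2, nb3, nc0, nc1, nc2, nc3]
        · rcases s61 with h5 | h5
          · linarith only [hA, hB, p02, p12, h1, h2, h3, h4, h5, na0, na1, na2, na3, nb0, nb1, nb2, nb3, nc0, nc1, nc2, nc3]
          · linarith only [hA, hB, p02, h1, h4, h5, na0, na1, na2, na3, nb0, nb1, nb2, nb3, nc0, nc1, nc2, nc3]

/-- A boolean function on `Fin 4` given by its values. -/
def B4 (a b c d : Bool) : Fin 4 → Bool :=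
  fun g => if g = 0 then a else if g = 1 then b else if g = 2 then c else d

theorem B4_0 (a b c d : Bool) : B4 a b c d 0 = a := rfl
theorem B4_1 (a b c d : Bool) : B4 a b c d 1 = b := rfl
theorem B4_2 (a b c d : Bool) : B4 a b c d 2 = c := rfl
theorem B4_3 (a b c d : Bool) : B4 a b c d 3 = d := rfl

end LP4

open LP4 in
theorem lp4 (K : Fin 3 × Fin 4 → ℝ) (hK : ∀ x, 0 ≤ K x) (L t : ℝ)
    (hL : ∀ i, ∑ g : Fin 4, (4 + ((g : ℕ) : ℝ)) * K (i, g) ≤ L)
    (hP : ∀ i j, i ≠ j → t ≤ ∑ g, K (i, g) + ∑ g, K (j, g))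
    (hS : ∀ i j l : Fin 3, i ≠ j → i ≠ l → j ≠ l → ∀ (f f' : Fin 4) (p q : ℕ),
      (f = f' ∧ p = 1 ∧ q = 1) ∨ (f = 0 ∧ f' = 2 ∧ p = 2 ∧ q = 3) → ∀ M : Fin 4 → Bool,
      t ≤ ∑ g, K (i, g) + ∑ g, K (j, g) - K (i, f) - K (j, f') +
          ∑ g, (if M g = true then K (l, g) else 0) ∨
      t ≤ ∑ g, K (i, g) + ∑ g, K (j, g) - K (i, f) - K (j, f') +
          ∑ g, (if M g = true then K (l, g) else 0) + p * K (i, f) + q * K (j, f') -
          ∑ g, (if M g = true then (4 + ((g : ℕ) : ℝ)) * K (l, g) else 0)) :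
    t ≤ 13 / 36 * L := by
  have hc0 : 4 * K (0, 0) + 5 * K (0, 1) + 6 * K (0, 2) + 7 * K (0, 3) ≤ L := by
    have h := hL 0
    simp only [Fin.sum_univ_four] at h
    norm_num at h
    linarith only [h]
  have hc1 : 4 * K (1, 0) + 5 * K (1, 1) + 6 * K (1, 2) + 7 * K (1, 3) ≤ L := by
    have h := hL 1
    simp only [Fin.sum_univ_four] at h
    norm_num at h
    linarith only [h]
  have hc2 : 4 * K (2, 0) + 5 * K (2, 1) + 6 * K (2, 2) + 7 * K (2, 3) ≤ L := by
    have h := hL 2
    simp only [Fin.sum_univ_four] at h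
    norm_num at h
    linarith only [h]
  have hp01 := hP 0 1 (by decide)
  simp only [Fin.sum_univ_four] at hp01
  have hp02 := hP 0 2 (by decide)
  simp only [Fin.sum_univ_four] at hp02
  have hp12 := hP 1 2 (by decide)
  simp only [Fin.sum_univ_four] at hp12
  have q0 := hS 0 1 2 (by decide) (by decide) (by decide) 0 0 1 1 (Or.inl ⟨rfl, rfl, rfl⟩)
    (B4 true false false false)
  simp only [Fin.sum_univ_four, B4_0, B4_1, B4_2, B4_3] at q0
  norm_num at q0
  have q1 := hS 1 2 0 (by decide) (by decide) (by decide) 0 0 1 1 (Or.inl ⟨rfl, rfl, rfl⟩)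
    (B4 false true false false)
  simp only [Fin.sum_univ_four, B4_0, B4_1, B4_2, B4_3] at q1
  norm_num at q1
  have q2 := hS 0 1 2 (by decide) (by decide) (by decide) 1 1 1 1 (Or.inl ⟨rfl, rfl, rfl⟩)
    (B4 true false false false)
  simp only [Fin.sum_univ_four, B4_0, B4_1, B4_2, B4_3] at q2
  norm_num at q2
  have q3 := hS 0 1 2 (by decide) (by decide) (by decide) 0 2 2 3 (Or.inr ⟨rfl, rfl, rfl, rfl⟩)
    (B4 true true false false)
  simp only [Fin.sum_univ_four, B4_0, B4_1, B4_2, B4_3] at q3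
  norm_num at q3
  have q4 := hS 2 1 0 (by decide) (by decide) (by decide) 0 2 2 3 (Or.inr ⟨rfl, rfl, rfl, rfl⟩)
    (B4 false true false false)
  simp only [Fin.sum_univ_four, B4_0, B4_1, B4_2, B4_3] at q4
  norm_num at q4
  have q5 := hS 0 2 1 (by decide) (by decide) (by decide) 1 1 1 1 (Or.inl ⟨rfl, rfl, rfl⟩)
    (B4 true false false false)
  simp only [Fin.sum_univ_four, B4_0, B4_1, B4_2, B4_3] at q5
  norm_num at q5
  have q6 := hS 0 2 1 (by decide) (by decide) (by decide) 1 1 1 1 (Or.inl ⟨rfl, rfl, rfl⟩)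
    (B4 true false true false)
  simp only [Fin.sum_univ_four, B4_0, B4_1, B4_2, B4_3] at q6
  norm_num at q6
  have q7 := hS 0 2 1 (by decide) (by decide) (by decide) 1 1 1 1 (Or.inl ⟨rfl, rfl, rfl⟩)
    (B4 false false false true)
  simp only [Fin.sum_univ_four, B4_0, B4_1, B4_2, B4_3] at q7
  norm_num at q7
  have q8 := hS 0 1 2 (by decide) (by decide) (by decide) 3 3 1 1 (Or.inl ⟨rfl, rfl, rfl⟩)
    (B4 true false false false)
  simp only [Fin.sum_univ_four, B4_0, B4_1, B4_2, B4_3] at q8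
  norm_num at q8
  have q9 := hS 0 1 2 (by decide) (by decide) (by decide) 0 0 1 1 (Or.inl ⟨rfl, rfl, rfl⟩)
    (B4 false false true false)
  simp only [Fin.sum_univ_four, B4_0, B4_1, B4_2, B4_3] at q9
  norm_num at q9
  have q10 := hS 0 1 2 (by decide) (by decide) (by decide) 1 1 1 1 (Or.inl ⟨rfl, rfl, rfl⟩)
    (B4 false true false false)
  simp only [Fin.sum_univ_four, B4_0, B4_1, B4_2, B4_3] at q10
  norm_num at q10
  have q11 := hS 2 1 0 (by decide) (by decide) (by decide) 0 2 2 3 (Or.inr ⟨rfl, rfl, rfl, rfl⟩)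
    (B4 false true true false)
  simp only [Fin.sum_univ_four, B4_0, B4_1, B4_2, B4_3] at q11
  norm_num at q11
  have q12 := hS 2 1 0 (by decide) (by decide) (by decide) 0 2 2 3 (Or.inr ⟨rfl, rfl, rfl, rfl⟩)
    (B4 false true false true)
  simp only [Fin.sum_univ_four, B4_0, B4_1, B4_2, B4_3] at q12
  norm_num at q12
  have q13 := hS 0 2 1 (by decide) (by decide) (by decide) 0 0 1 1 (Or.inl ⟨rfl, rfl, rfl⟩)
    (B4 false true false false)
  simp only [Fin.sum_univ_four, B4_0, B4_1, B4_2, B4_3] at q13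
  norm_num at q13
  have q14 := hS 0 1 2 (by decide) (by decide) (by decide) 2 2 1 1 (Or.inl ⟨rfl, rfl, rfl⟩)
    (B4 false true false false)
  simp only [Fin.sum_univ_four, B4_0, B4_1, B4_2, B4_3] at q14
  norm_num at q14
  have q15 := hS 0 2 1 (by decide) (by decide) (by decide) 0 0 1 1 (Or.inl ⟨rfl, rfl, rfl⟩)
    (B4 true true false false)
  simp only [Fin.sum_univ_four, B4_0, B4_1, B4_2, B4_3] at q15
  norm_num at q15
  have q16 := hS 0 2 1 (by decide) (by decide) (by decide) 0 0 1 1 (Or.inl ⟨rfl, rfl, rfl⟩)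
    (B4 false true false true)
  simp only [Fin.sum_univ_four, B4_0, B4_1, B4_2, B4_3] at q16
  norm_num at q16
  have q17 := hS 0 2 1 (by decide) (by decide) (by decide) 0 0 1 1 (Or.inl ⟨rfl, rfl, rfl⟩)
    (B4 true true false true)
  simp only [Fin.sum_univ_four, B4_0, B4_1, B4_2, B4_3] at q17
  norm_num at q17
  have q18 := hS 1 2 0 (by decide) (by decide) (by decide) 2 2 1 1 (Or.inl ⟨rfl, rfl, rfl⟩)
    (B4 true false false false)
  simp only [Fin.sum_univ_four, B4_0, B4_1, B4_2, B4_3] at q18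
  norm_num at q18
  have q19 := hS 0 2 1 (by decide) (by decide) (by decide) 1 1 1 1 (Or.inl ⟨rfl, rfl, rfl⟩)
    (B4 false false true false)
  simp only [Fin.sum_univ_four, B4_0, B4_1, B4_2, B4_3] at q19
  norm_num at q19
  have q20 := hS 1 2 0 (by decide) (by decide) (by decide) 1 1 1 1 (Or.inl ⟨rfl, rfl, rfl⟩)
    (B4 false false true false)
  simp only [Fin.sum_univ_four, B4_0, B4_1, B4_2, B4_3] at q20
  norm_num at q20
  have q21 := hS 0 1 2 (by decide) (by decide) (by decide) 1 1 1 1 (Or.inl ⟨rfl, rfl, rfl⟩)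
    (B4 false false true false)
  simp only [Fin.sum_univ_four, B4_0, B4_1, B4_2, B4_3] at q21
  norm_num at q21
  have q22 := hS 0 1 2 (by decide) (by decide) (by decide) 1 1 1 1 (Or.inl ⟨rfl, rfl, rfl⟩)
    (B4 false false false true)
  simp only [Fin.sum_univ_four, B4_0, B4_1, B4_2, B4_3] at q22
  norm_num at q22
  have q23 := hS 0 2 1 (by decide) (by decide) (by decide) 2 2 1 1 (Or.inl ⟨rfl, rfl, rfl⟩)
    (B4 true false false false)
  simp only [Fin.sum_univ_four, B4_0, B4_1, B4_2, B4_3] at q23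
  norm_num at q23
  have q24 := hS 0 2 1 (by decide) (by decide) (by decide) 2 2 1 1 (Or.inl ⟨rfl, rfl, rfl⟩)
    (B4 false false true false)
  simp only [Fin.sum_univ_four, B4_0, B4_1, B4_2, B4_3] at q24
  norm_num at q24
  have q25 := hS 0 2 1 (by decide) (by decide) (by decide) 2 2 1 1 (Or.inl ⟨rfl, rfl, rfl⟩)
    (B4 false false false true)
  simp only [Fin.sum_univ_four, B4_0, B4_1, B4_2, B4_3] at q25
  norm_num at q25
  have q26 := hS 2 0 1 (by decide) (by decide) (by decide) 0 2 2 3 (Or.inr ⟨rfl, rfl, rfl, rfl⟩)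
    (B4 false true false false)
  simp only [Fin.sum_univ_four, B4_0, B4_1, B4_2, B4_3] at q26
  norm_num at q26
  have q27 := hS 0 1 2 (by decide) (by decide) (by decide) 2 2 1 1 (Or.inl ⟨rfl, rfl, rfl⟩)
    (B4 true false false false)
  simp only [Fin.sum_univ_four, B4_0, B4_1, B4_2, B4_3] at q27
  norm_num at q27
  have q28 := hS 1 2 0 (by decide) (by decide) (by decide) 0 0 1 1 (Or.inl ⟨rfl, rfl, rfl⟩)
    (B4 false true false true)
  simp only [Fin.sum_univ_four, B4_0, B4_1, B4_2, B4_3] at q28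
  norm_num at q28
  have q29 := hS 1 2 0 (by decide) (by decide) (by decide) 0 0 1 1 (Or.inl ⟨rfl, rfl, rfl⟩)
    (B4 true true false false)
  simp only [Fin.sum_univ_four, B4_0, B4_1, B4_2, B4_3] at q29
  norm_num at q29
  have q30 := hS 1 2 0 (by decide) (by decide) (by decide) 0 0 1 1 (Or.inl ⟨rfl, rfl, rfl⟩)
    (B4 true true false true)
  simp only [Fin.sum_univ_four, B4_0, B4_1, B4_2, B4_3] at q30
  norm_num at q30
  have q31 := hS 0 2 1 (by decide) (by decide) (by decide) 2 2 1 1 (Or.inl ⟨rfl, rfl, rfl⟩)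
    (B4 false true false false)
  simp only [Fin.sum_univ_four, B4_0, B4_1, B4_2, B4_3] at q31
  norm_num at q31
  have q32 := hS 1 2 0 (by decide) (by decide) (by decide) 1 1 1 1 (Or.inl ⟨rfl, rfl, rfl⟩)
    (B4 false false false true)
  simp only [Fin.sum_univ_four, B4_0, B4_1, B4_2, B4_3] at q32
  norm_num at q32
  have q33 := hS 0 2 1 (by decide) (by decide) (by decide) 0 0 1 1 (Or.inl ⟨rfl, rfl, rfl⟩)
    (B4 true false false false)
  simp only [Fin.sum_univ_four, B4_0, B4_1, B4_2, B4_3] at q33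
  norm_num at q33
  have q34 := hS 0 1 2 (by decide) (by decide) (by decide) 0 0 1 1 (Or.inl ⟨rfl, rfl, rfl⟩)
    (B4 false false true true)
  simp only [Fin.sum_univ_four, B4_0, B4_1, B4_2, B4_3] at q34
  norm_num at q34
  have q35 := hS 1 2 0 (by decide) (by decide) (by decide) 0 0 1 1 (Or.inl ⟨rfl, rfl, rfl⟩)
    (B4 false false false true)
  simp only [Fin.sum_univ_four, B4_0, B4_1, B4_2, B4_3] at q35
  norm_num at q35
  have q36 := hS 1 2 0 (by decide) (by decide) (by decide) 0 0 1 1 (Or.inl ⟨rfl, rfl, rfl⟩)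
    (B4 false false true false)
  simp only [Fin.sum_univ_four, B4_0, B4_1, B4_2, B4_3] at q36
  norm_num at q36
  have q37 := hS 0 2 1 (by decide) (by decide) (by decide) 0 0 1 1 (Or.inl ⟨rfl, rfl, rfl⟩)
    (B4 false false true false)
  simp only [Fin.sum_univ_four, B4_0, B4_1, B4_2, B4_3] at q37
  norm_num at q37
  have q38 := hS 0 2 1 (by decide) (by decide) (by decide) 0 0 1 1 (Or.inl ⟨rfl, rfl, rfl⟩)
    (B4 false false false true)
  simp only [Fin.sum_univ_four, B4_0, B4_1, B4_2, B4_3] at q38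
  norm_num at q38
  have q39 := hS 0 2 1 (by decide) (by decide) (by decide) 0 0 1 1 (Or.inl ⟨rfl, rfl, rfl⟩)
    (B4 false true true true)
  simp only [Fin.sum_univ_four, B4_0, B4_1, B4_2, B4_3] at q39
  norm_num at q39
  have q40 := hS 0 1 2 (by decide) (by decide) (by decide) 0 0 1 1 (Or.inl ⟨rfl, rfl, rfl⟩)
    (B4 false true false false)
  simp only [Fin.sum_univ_four, B4_0, B4_1, B4_2, B4_3] at q40
  norm_num at q40
  have q41 := hS 0 2 1 (by decide) (by decide) (by decide) 1 1 1 1 (Or.inl ⟨rfl, rfl, rfl⟩)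
    (B4 false true false false)
  simp only [Fin.sum_univ_four, B4_0, B4_1, B4_2, B4_3] at q41
  norm_num at q41
  have q42 := hS 1 0 2 (by decide) (by decide) (by decide) 0 2 2 3 (Or.inr ⟨rfl, rfl, rfl, rfl⟩)
    (B4 false true false false)
  simp only [Fin.sum_univ_four, B4_0, B4_1, B4_2, B4_3] at q42
  norm_num at q42
  have q43 := hS 1 2 0 (by decide) (by decide) (by decide) 1 1 1 1 (Or.inl ⟨rfl, rfl, rfl⟩)
    (B4 true false false false)
  simp only [Fin.sum_univ_four, B4_0, B4_1, B4_2, B4_3] at q43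
  norm_num at q43
  have q44 := hS 1 2 0 (by decide) (by decide) (by decide) 1 1 1 1 (Or.inl ⟨rfl, rfl, rfl⟩)
    (B4 false true false false)
  simp only [Fin.sum_univ_four, B4_0, B4_1, B4_2, B4_3] at q44
  norm_num at q44
  have q45 := hS 0 1 2 (by decide) (by decide) (by decide) 0 2 2 3 (Or.inr ⟨rfl, rfl, rfl, rfl⟩)
    (B4 false true false false)
  simp only [Fin.sum_univ_four, B4_0, B4_1, B4_2, B4_3] at q45
  norm_num at q45
  have q46 := hS 0 2 1 (by decide) (by decide) (by decide) 0 2 2 3 (Or.inr ⟨rfl, rfl, rfl, rfl⟩)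
    (B4 false true false false)
  simp only [Fin.sum_univ_four, B4_0, B4_1, B4_2, B4_3] at q46
  norm_num at q46
  have q47 := hS 1 2 0 (by decide) (by decide) (by decide) 0 2 2 3 (Or.inr ⟨rfl, rfl, rfl, rfl⟩)
    (B4 false true false false)
  simp only [Fin.sum_univ_four, B4_0, B4_1, B4_2, B4_3] at q47
  norm_num at q47
  have q48 := hS 1 2 0 (by decide) (by decide) (by decide) 0 2 2 3 (Or.inr ⟨rfl, rfl, rfl, rfl⟩)
    (B4 false true false true)
  simp only [Fin.sum_univ_four, B4_0, B4_1, B4_2, B4_3] at q48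
  norm_num at q48
  have q49 := hS 0 1 2 (by decide) (by decide) (by decide) 0 0 1 1 (Or.inl ⟨rfl, rfl, rfl⟩)
    (B4 true true false false)
  simp only [Fin.sum_univ_four, B4_0, B4_1, B4_2, B4_3] at q49
  norm_num at q49
  have q50 := hS 0 1 2 (by decide) (by decide) (by decide) 0 0 1 1 (Or.inl ⟨rfl, rfl, rfl⟩)
    (B4 true false false true)
  simp only [Fin.sum_univ_four, B4_0, B4_1, B4_2, B4_3] at q50
  norm_num at q50
  have q51 := hS 0 1 2 (by decide) (by decide) (by decide) 0 0 1 1 (Or.inl ⟨rfl, rfl, rfl⟩)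
    (B4 true true false true)
  simp only [Fin.sum_univ_four, B4_0, B4_1, B4_2, B4_3] at q51
  norm_num at q51
  have q52 := hS 0 2 1 (by decide) (by decide) (by decide) 0 2 2 3 (Or.inr ⟨rfl, rfl, rfl, rfl⟩)
    (B4 true true false false)
  simp only [Fin.sum_univ_four, B4_0, B4_1, B4_2, B4_3] at q52
  norm_num at q52
  have q53 := hS 1 2 0 (by decide) (by decide) (by decide) 2 2 1 1 (Or.inl ⟨rfl, rfl, rfl⟩)
    (B4 false true false false)
  simp only [Fin.sum_univ_four, B4_0, B4_1, B4_2, B4_3] at q53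
  norm_num at q53
  have q54 := hS 1 2 0 (by decide) (by decide) (by decide) 2 2 1 1 (Or.inl ⟨rfl, rfl, rfl⟩)
    (B4 false false true false)
  simp only [Fin.sum_univ_four, B4_0, B4_1, B4_2, B4_3] at q54
  norm_num at q54
  have q55 := hS 1 2 0 (by decide) (by decide) (by decide) 2 2 1 1 (Or.inl ⟨rfl, rfl, rfl⟩)
    (B4 false false false true)
  simp only [Fin.sum_univ_four, B4_0, B4_1, B4_2, B4_3] at q55
  norm_num at q55
  have q56 := hS 0 1 2 (by decide) (by decide) (by decide) 0 0 1 1 (Or.inl ⟨rfl, rfl, rfl⟩)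
    (B4 false false false true)
  simp only [Fin.sum_univ_four, B4_0, B4_1, B4_2, B4_3] at q56
  norm_num at q56
  have q57 := hS 0 1 2 (by decide) (by decide) (by decide) 1 1 1 1 (Or.inl ⟨rfl, rfl, rfl⟩)
    (B4 true true true false)
  simp only [Fin.sum_univ_four, B4_0, B4_1, B4_2, B4_3] at q57
  norm_num at q57
  have q58 := hS 1 2 0 (by decide) (by decide) (by decide) 0 0 1 1 (Or.inl ⟨rfl, rfl, rfl⟩)
    (B4 true false false false)
  simp only [Fin.sum_univ_four, B4_0, B4_1, B4_2, B4_3] at q58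
  norm_num at q58
  have q59 := hS 0 2 1 (by decide) (by decide) (by decide) 3 3 1 1 (Or.inl ⟨rfl, rfl, rfl⟩)
    (B4 true false false false)
  simp only [Fin.sum_univ_four, B4_0, B4_1, B4_2, B4_3] at q59
  norm_num at q59
  have q60 := hS 0 2 1 (by decide) (by decide) (by decide) 3 3 1 1 (Or.inl ⟨rfl, rfl, rfl⟩)
    (B4 false true false false)
  simp only [Fin.sum_univ_four, B4_0, B4_1, B4_2, B4_3] at q60
  norm_num at q60
  have q61 := hS 0 1 2 (by decide) (by decide) (by decide) 0 0 1 1 (Or.inl ⟨rfl, rfl, rfl⟩)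
    (B4 true true true false)
  simp only [Fin.sum_univ_four, B4_0, B4_1, B4_2, B4_3] at q61
  norm_num at q61
  refine LP4.core (K (0, 0)) (K (0, 1)) (K (0, 2)) (K (0, 3)) (K (1, 0)) (K (1, 1)) (K (1, 2))
    (K (1, 3)) (K (2, 0)) (K (2, 1)) (K (2, 2)) (K (2, 3)) L t
    (hK _) (hK _) (hK _) (hK _) (hK _) (hK _) (hK _) (hK _) (hK _) (hK _) (hK _) (hK _)
    hc0 hc1 hc2 (by linarith only [hp01]) (by linarith only [hp02]) (by linarith only [hp12])
    (by rcases q0 with h | h
        · left; linarith only [h]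
        · right; linarith only [h])
    (by rcases q1 with h | h
        · left; linarith only [h]
        · right; linarith only [h])
    (by rcases q2 with h | h
        · left; linarith only [h]
        · right; linarith only [h])
    (by rcases q3 with h | h
        · left; linarith only [h]
        · right; linarith only [h])
    (by rcases q4 with h | h
        · left; linarith only [h]
        · right; linarith only [h])
    (by rcases q5 with h | h
        · left; linarith only [h]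
        · right; linarith only [h])
    (by rcases q6 with h | h
        · left; linarith only [h]
        · right; linarith only [h])
    (by rcases q7 with h | h
        · left; linarith only [h]
        · right; linarith only [h])
    (by rcases q8 with h | h
        · left; linarith only [h]
        · right; linarith only [h])
    (by rcases q9 with h | h
        · left; linarith only [h]
        · right; linarith only [h])
    (by rcases q10 with h | h
        · left; linarith only [h]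
        · right; linarith only [h])
    (by rcases q11 with h | h
        · left; linarith only [h]
        · right; linarith only [h])
    (by rcases q12 with h | h
        · left; linarith only [h]
        · right; linarith only [h])
    (by rcases q13 with h | h
        · left; linarith only [h]
        · right; linarith only [h])
    (by rcases q14 with h | h
        · left; linarith only [h]
        · right; linarith only [h])
    (by rcases q15 with h | h
        · left; linarith only [h]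
        · right; linarith only [h])
    (by rcases q16 with h | h
        · left; linarith only [h]
        · right; linarith only [h])
    (by rcases q17 with h | h
        · left; linarith only [h]
        · right; linarith only [h])
    (by rcases q18 with h | h
        · left; linarith only [h]
        · right; linarith only [h])
    (by rcases q19 with h | h
        · left; linarith only [h]
        · right; linarith only [h])
    (by rcases q20 with h | h
        · left; linarith only [h]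
        · right; linarith only [h])
    (by rcases q21 with h | h
        · left; linarith only [h]
        · right; linarith only [h])
    (by rcases q22 with h | h
        · left; linarith only [h]
        · right; linarith only [h])
    (by rcases q23 with h | h
        · left; linarith only [h]
        · right; linarith only [h])
    (by rcases q24 with h | h
        · left; linarith only [h]
        · right; linarith only [h])
    (by rcases q25 with h | h
        · left; linarith only [h]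
        · right; linarith only [h])
    (by rcases q26 with h | h
        · left; linarith only [h]
        · right; linarith only [h])
    (by rcases q27 with h | h
        · left; linarith only [h]
        · right; linarith only [h])
    (by rcases q28 with h | h
        · left; linarith only [h]
        · right; linarith only [h])
    (by rcases q29 with h | h
        · left; linarith only [h]
        · right; linarith only [h])
    (by rcases q30 with h | h
        · left; linarith only [h]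
        · right; linarith only [h])
    (by rcases q31 with h | h
        · left; linarith only [h]
        · right; linarith only [h])
    (by rcases q32 with h | h
        · left; linarith only [h]
        · right; linarith only [h])
    (by rcases q33 with h | h
        · left; linarith only [h]
        · right; linarith only [h])
    (by rcases q34 with h | h
        · left; linarith only [h]
        · right; linarith only [h])
    (by rcases q35 with h | h
        · left; linarith only [h]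
        · right; linarith only [h])
    (by rcases q36 with h | h
        · left; linarith only [h]
        · right; linarith only [h])
    (by rcases q37 with h | h
        · left; linarith only [h]
        · right; linarith only [h])
    (by rcases q38 with h | h
        · left; linarith only [h]
        · right; linarith only [h])
    (by rcases q39 with h | h
        · left; linarith only [h]
        · right; linarith only [h])
    (by rcases q40 with h | h
        · left; linarith only [h]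
        · right; linarith only [h])
    (by rcases q41 with h | h
        · left; linarith only [h]
        · right; linarith only [h])
    (by rcases q42 with h | h
        · left; linarith only [h]
        · right; linarith only [h])
    (by rcases q43 with h | h
        · left; linarith only [h]
        · right; linarith only [h])
    (by rcases q44 with h | h
        · left; linarith only [h]
        · right; linarith only [h])
    (by rcases q45 with h | h
        · left; linarith only [h]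
        · right; linarith only [h])
    (by rcases q46 with h | h
        · left; linarith only [h]
        · right; linarith only [h])
    (by rcases q47 with h | h
        · left; linarith only [h]
        · right; linarith only [h])
    (by rcases q48 with h | h
        · left; linarith only [h]
        · right; linarith only [h])
    (by rcases q49 with h | h
        · left; linarith only [h]
        · right; linarith only [h])
    (by rcases q50 with h | h
        · left; linarith only [h]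
        · right; linarith only [h])
    (by rcases q51 with h | h
        · left; linarith only [h]
        · right; linarith only [h])
    (by rcases q52 with h | h
        · left; linarith only [h]
        · right; linarith only [h])
    (by rcases q53 with h | h
        · left; linarith only [h]
        · right; linarith only [h])
    (by rcases q54 with h | h
        · left; linarith only [h]
        · right; linarith only [h])
    (by rcases q55 with h | h
        · left; linarith only [h]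
        · right; linarith only [h])
    (by rcases q56 with h | h
        · left; linarith only [h]
        · right; linarith only [h])
    (by rcases q57 with h | h
        · left; linarith only [h]
        · right; linarith only [h])
    (by rcases q58 with h | h
        · left; linarith only [h]
        · right; linarith only [h])
    (by rcases q59 with h | h
        · left; linarith only [h]
        · right; linarith only [h])
    (by rcases q60 with h | h
        · left; linarith only [h]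
        · right; linarith only [h])
    (by rcases q61 with h | h
        · left; linarith only [h]
        · right; linarith only [h])

end Pool.H65.PF
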