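import Pool.Agent.H65.PF.P4
import Pool.Agent.H65.PF.L4
import Pool.Agent.H65.PF.LP4

set_option autoImplicit false

/-!
# Module Box4: one dyadic box, r = 4 (130 lines)

If T is empty nothing to prove. Otherwise put F = 514 * dmax N ^ 13 (≥ 1),
t = Real.logb 2 (T.card / F), L = Real.logb 2 N, K x = (k x : ℝ), and apply `lp4`.
* hL: fix v in T; 2 ^ k ≤ v (`Nat.pow_log_le_self`), so
  2 ^ (sum of (4 + g) k (i, g)) ≤ nm v i ≤ N; take logarithms.
* hP: `P4` gives T.card ≤ F * 2 ^ (S_i + S_j) (dmax N ≥ 1), take logarithms.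
* hS: for (f, f', p, q) of the first kind take e = 4 + f; of the second kind e = 2 (4 = 2 * 2,
  6 = 2 * 3); M' = univ.filter (M · = true). With X = 2 ^ kappa / 2 ^ size one has
  1 + 256 X ≤ 257 if X ≤ 1 and ≤ 257 X if X ≥ 1, so `L4` gives T.card ≤ F * 2 ^ a or
  T.card ≤ F * 2 ^ (a + kappa - size), with
  a = sum over g ≠ f of k (i, g) + sum over g ≠ f' of k (j, g) + sum over M' of k (l, g)
  (`Finset.add_sum_erase`, `Finset.sum_filter`). Take logarithms.
Conclusion t ≤ 13/36 L, that is T.card / F ≤ 2 ^ (13/36 L) = N ^ (13/36).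
-/

namespace Pool.H65.PF

private theorem box4_dmax (N : ℕ) (hN : 1 ≤ N) : (1 : ℝ) ≤ (dmax N : ℝ) := by
  have h : (Nat.divisors 1).card ≤ dmax N :=
    Finset.le_sup (f := fun n : ℕ => n.divisors.card) (Finset.mem_Icc.2 ⟨le_refl 1, hN⟩)
  have h1 : 1 ≤ dmax N := by
    simpa using h
  exact_mod_cast h1

private theorem box4_log (c F y : ℝ) (hc : 0 < c) (hF : 0 < F) (h : c ≤ F * (2 : ℝ) ^ y) :
    Real.logb 2 (c / F) ≤ y := by
  rw [Real.logb_le_iff_le_rpow one_lt_two (div_pos hc hF), div_le_iff₀ hF, mul_comm]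
  exact h

private theorem box4_erase (k : Fin 3 × Fin 4 → ℕ) (i : Fin 3) (f : Fin 4) :
    ((∑ g ∈ Finset.univ.erase f, k (i, g) : ℕ) : ℝ) = ∑ g, (k (i, g) : ℝ) - (k (i, f) : ℝ) := by
  have h := Finset.add_sum_erase Finset.univ (fun g : Fin 4 => k (i, g)) (Finset.mem_univ f)
  have h' : ((k (i, f) : ℕ) : ℝ) + ((∑ g ∈ Finset.univ.erase f, k (i, g) : ℕ) : ℝ) =
      ((∑ g, k (i, g) : ℕ) : ℝ) := by
    exact_mod_cast h
  rw [Nat.cast_sum] at h'
  rw [Nat.cast_sum] at h'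
  rw [Nat.cast_sum]
  linarith

theorem box4 (N : ℕ) (hN : 1 ≤ N) (k : Fin 3 × Fin 4 → ℕ) (T : Finset (Fin 3 × Fin 4 → ℕ))
    (hT : ∀ v ∈ T, Tup4 N v ∧ ∀ x, Nat.log 2 (v x) = k x) :
    (T.card : ℝ) ≤ 514 * (dmax N : ℝ) ^ 13 * (N : ℝ) ^ ((13 : ℝ) / 36) := by
  have hN0 : (0 : ℝ) < (N : ℝ) := by exact_mod_cast hN
  have hD := box4_dmax N hN
  have hD13 : (1 : ℝ) ≤ (dmax N : ℝ) ^ 13 := one_le_pow₀ hD
  rcases T.eq_empty_or_nonempty with hE | hE
  · rw [hE, Finset.card_empty, Nat.cast_zero]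
    positivity
  obtain ⟨v0, hv0⟩ := hE
  have hc : (0 : ℝ) < (T.card : ℝ) := by
    exact_mod_cast Finset.card_pos.2 ⟨v0, hv0⟩
  set F : ℝ := 514 * (dmax N : ℝ) ^ 13 with hFdef
  have hF : 0 < F := by positivity
  have hlp := lp4 (fun x => (k x : ℝ)) (fun x => Nat.cast_nonneg _) (Real.logb 2 N)
    (Real.logb 2 (T.card / F)) ?_ ?_ ?_
  · have h1 := (Real.logb_le_iff_le_rpow one_lt_two (div_pos hc hF)).1 hlp
    rw [div_le_iff₀ hF] at h1
    have h2 : (2 : ℝ) ^ (13 / 36 * Real.logb 2 N) = (N : ℝ) ^ ((13 : ℝ) / 36) := by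
      rw [mul_comm, Real.rpow_mul zero_le_two, Real.rpow_logb zero_lt_two (by norm_num) hN0]
    rw [h2, mul_comm] at h1
    exact h1
  · intro i
    obtain ⟨ht, hk⟩ := hT v0 hv0
    have hle := ht.le i
    have hlow : 2 ^ (∑ g : Fin 4, (4 + (g : ℕ)) * k (i, g)) ≤ nm v0 i := by
      rw [← Finset.prod_pow_eq_pow_sum]
      unfold nm
      apply Finset.prod_le_prod'
      intro g _
      rw [mul_comm, pow_mul]
      apply Nat.pow_le_pow_left
      rw [← hk (i, g)]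
      exact Nat.pow_log_le_self 2 (ht.1 (i, g)).ne'
    have h3 : ((2 : ℝ) ^ (∑ g : Fin 4, (4 + (g : ℕ)) * k (i, g))) ≤ (N : ℝ) := by
      exact_mod_cast hlow.trans hle
    rw [Real.le_logb_iff_rpow_le one_lt_two hN0]
    have h4 : ∑ g : Fin 4, (4 + ((g : ℕ) : ℝ)) * (k (i, g) : ℝ) =
        ((∑ g : Fin 4, (4 + (g : ℕ)) * k (i, g) : ℕ) : ℝ) := by
      push_cast
      rfl
    rw [h4, Real.rpow_natCast]
    exact h3
  · intro i j hij
    have h5 := P4 N k T hT i j hij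
    apply box4_log _ _ _ hc hF
    have h6 : ∑ g, (k (i, g) : ℝ) + ∑ g, (k (j, g) : ℝ) =
        ((∑ g, k (i, g) + ∑ g, k (j, g) : ℕ) : ℝ) := by
      push_cast
      rfl
    rw [h6, Real.rpow_natCast]
    refine h5.trans (mul_le_mul_of_nonneg_right ?_ (by positivity))
    have h7 : (dmax N : ℝ) ^ 4 ≤ (dmax N : ℝ) ^ 13 := pow_le_pow_right₀ hD (by norm_num)
    rw [hFdef]
    linarith
  · intro i j l hij hil hjl f f' p q hfp M
    obtain ⟨e, he, he7, hp, hq, hpq, hq3, hf, hf'⟩ : ∃ e : ℕ, 1 ≤ e ∧ e ≤ 7 ∧ 1 ≤ p ∧ 1 ≤ q ∧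
        p + q ≤ 5 ∧ q ≤ 3 ∧ 4 + (f : ℕ) = e * p ∧ 4 + (f' : ℕ) = e * q := by
      rcases hfp with ⟨h1, h2, h3⟩ | ⟨h1, h2, h3, h4⟩
      · subst h1 h2 h3
        refine ⟨4 + (f : ℕ), by omega, ?_, le_refl _, le_refl _, by norm_num, by norm_num,
          by ring, by ring⟩
        have := f.2
        omega
      · subst h1 h2 h3 h4
        exact ⟨2, by norm_num, by norm_num, by norm_num, by norm_num, by norm_num, by norm_num,
          rfl, rfl⟩
    have h8 := L4 N k T hT i j l hij hil hjl f f' e p q he he7 hp hq hpq hq3 hf hf'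
      (Finset.univ.filter (fun g => M g = true))
    have ha : ((∑ g ∈ Finset.univ.erase f, k (i, g) + ∑ g ∈ Finset.univ.erase f', k (j, g) +
        ∑ g ∈ Finset.univ.filter (fun g => M g = true), k (l, g) : ℕ) : ℝ) =
        ∑ g, (k (i, g) : ℝ) + ∑ g, (k (j, g) : ℝ) - (k (i, f) : ℝ) - (k (j, f') : ℝ) +
          ∑ g, (if M g = true then (k (l, g) : ℝ) else 0) := by
      rw [Nat.cast_add, Nat.cast_add, box4_erase, box4_erase, Nat.cast_sum, Finset.sum_filter]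
      ring
    have hb : ((∑ g ∈ Finset.univ.filter (fun g => M g = true), (4 + (g : ℕ)) * k (l, g) : ℕ) :
        ℝ) = ∑ g, (if M g = true then (4 + ((g : ℕ) : ℝ)) * (k (l, g) : ℝ) else 0) := by
      rw [Nat.cast_sum, Finset.sum_filter]
      apply Finset.sum_congr rfl
      intro g _
      split
      · push_cast
        rfl
      · rfl
    set a : ℕ := ∑ g ∈ Finset.univ.erase f, k (i, g) + ∑ g ∈ Finset.univ.erase f', k (j, g) +
        ∑ g ∈ Finset.univ.filter (fun g => M g = true), k (l, g) with hadef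
    set b : ℕ := ∑ g ∈ Finset.univ.filter (fun g => M g = true), (4 + (g : ℕ)) * k (l, g)
      with hbdef
    rw [← ha, ← hb]
    set X : ℝ := 2 ^ (p * k (i, f) + q * k (j, f')) with hX
    have hX0 : 0 < X := by positivity
    have hY0 : (0 : ℝ) < 2 ^ b := by positivity
    have hA0 : (0 : ℝ) < 2 ^ a := by positivity
    rcases le_total X (2 ^ b) with hXY | hXY
    · left
      apply box4_log _ _ _ hc hF
      rw [Real.rpow_natCast]
      refine h8.trans (mul_le_mul_of_nonneg_right ?_ hA0.le)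
      have h9 : X / 2 ^ b ≤ 1 := (div_le_one hY0).2 hXY
      have h10 : 256 * X / 2 ^ b = 256 * (X / 2 ^ b) := by ring
      rw [h10, hFdef]
      nlinarith
    · right
      apply box4_log _ _ _ hc hF
      have h11 : (a : ℝ) + (p : ℝ) * (k (i, f) : ℝ) + (q : ℝ) * (k (j, f') : ℝ) - (b : ℝ) =
          (a : ℝ) + ((p * k (i, f) + q * k (j, f') : ℕ) : ℝ) - (b : ℝ) := by
        push_cast
        ring
      rw [h11, Real.rpow_sub zero_lt_two, Real.rpow_add zero_lt_two, Real.rpow_natCast,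
        Real.rpow_natCast, Real.rpow_natCast, ← hX]
      have h12 : 1 ≤ X / 2 ^ b := (one_le_div hY0).2 hXY
      have h13 : 256 * X / 2 ^ b = 256 * (X / 2 ^ b) := by ring
      have h14 : F * (2 ^ a * X / 2 ^ b) = F * (X / 2 ^ b) * 2 ^ a := by ring
      rw [h14]
      refine h8.trans (mul_le_mul_of_nonneg_right ?_ hA0.le)
      rw [h13, hFdef]
      have h15 : 1 + 256 * (X / 2 ^ b) ≤ 257 * (X / 2 ^ b) := by linarith
      calc 2 * (dmax N : ℝ) ^ 13 * (1 + 256 * (X / 2 ^ b))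
          ≤ 2 * (dmax N : ℝ) ^ 13 * (257 * (X / 2 ^ b)) :=
            mul_le_mul_of_nonneg_left h15 (by positivity)
        _ = 514 * (dmax N : ℝ) ^ 13 * (X / 2 ^ b) := by ring

end Pool.H65.PF
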