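import Mathlib

set_option autoImplicit false

/-!
# Module Boxes: dyadic decomposition (60 lines)

The functions v in T have Nat.log 2 (v x) ∈ range (Nat.log 2 N + 1) for all x, so T is the union
over k in `Fintype.piFinset (fun _ => Finset.range (Nat.log 2 N + 1))` of the parts with
Nat.log 2 (v x) = k x (`Finset.card_eq_sum_card_fiberwise` for the map
v ↦ (x ↦ Nat.log 2 (v x))), and this index set has (Nat.log 2 N + 1) ^ |ι| elements
(`Fintype.card_piFinset_const` or `Fintype.card_piFinset` + `Finset.prod_const`).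
-/

namespace Pool.H65.PF

theorem boxes {ι : Type*} [Fintype ι] [DecidableEq ι] (N : ℕ) (T : Finset (ι → ℕ))
    (hT : ∀ v ∈ T, ∀ x, 1 ≤ v x ∧ v x ≤ N) (b : ℝ)
    (h : ∀ k : ι → ℕ, ((T.filter (fun v => ∀ x, Nat.log 2 (v x) = k x)).card : ℝ) ≤ b) :
    (T.card : ℝ) ≤ ((Nat.log 2 N + 1 : ℕ) : ℝ) ^ Fintype.card ι * b := by
  have h1 : T.card = ∑ k ∈ Fintype.piFinset (fun _ : ι => Finset.range (Nat.log 2 N + 1)),
      (T.filter (fun v => (fun x => Nat.log 2 (v x)) = k)).card := by
    apply Finset.card_eq_sum_card_fiberwise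
    intro v hv
    rw [Finset.mem_coe, Fintype.mem_piFinset]
    intro x
    rw [Finset.mem_range]
    exact Nat.lt_succ_of_le (Nat.log_mono_right (hT v hv x).2)
  have h2 : ∀ k : ι → ℕ, ((T.filter (fun v => (fun x => Nat.log 2 (v x)) = k)).card : ℝ) ≤ b := by
    intro k
    refine le_trans (le_of_eq ?_) (h k)
    congr 2
    apply Finset.filter_congr
    intro v _
    exact funext_iff
  rw [h1]
  push_cast
  calc ∑ k ∈ Fintype.piFinset (fun _ : ι => Finset.range (Nat.log 2 N + 1)),
        ((T.filter (fun v => (fun x => Nat.log 2 (v x)) = k)).card : ℝ)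
      ≤ ∑ _k ∈ Fintype.piFinset (fun _ : ι => Finset.range (Nat.log 2 N + 1)), b :=
        Finset.sum_le_sum fun k _ => h2 k
    _ = _ := by
        rw [Finset.sum_const, Fintype.card_piFinset, Finset.prod_const, Finset.card_range,
          Finset.card_univ, nsmul_eq_mul]
        push_cast
        rfl

end Pool.H65.PF
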