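import Pool.Agent.H65.PF.Defs

set_option autoImplicit false

/-!
# Module Decomp: every r-powerful number is a product of an r-th, (r+1)-st, ..., (2r-1)-st power
(120 lines)

Proof by `Nat.recOnPosPrimePosCoprime` (induction over coprime products).
* n = 0 is not powerful; n = 1: all coordinates 1.
* n = p ^ k, k ≥ 1: p | n, so p ^ r | p ^ k, k ≥ r (`Nat.pow_dvd_pow_iff_le_right`). Write
  k = r b + c, c = k % r < r, b = k / r ≥ 1. If c = 0 take v 0 = p ^ b and all others 1.
  If c > 0 take v 0 = p ^ (b - 1), v c = p, all others 1: r (b - 1) + (r + c) = k.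
* n = a b with a, b coprime: both are powerful (p | a, then p ^ r | a b and p is coprime to b, so
  p ^ r | a); multiply the coordinates.
-/

namespace Pool.H65.PF

private theorem decomp_coprime (r : ℕ) (a b : ℕ) (hab : Nat.Coprime a b)
    (h : Powerful r (a * b)) : Powerful r a := by
  obtain ⟨h0, h1⟩ := h
  refine ⟨Nat.pos_of_mul_pos_right (by rwa [mul_comm] at h0) , ?_⟩
  intro p hp hpa
  have h2 : p ^ r ∣ a * b := h1 p hp (hpa.mul_right b)
  have h3 : Nat.Coprime (p ^ r) b := by
    apply Nat.Coprime.pow_left
    exact Nat.Coprime.coprime_dvd_left hpa hab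
  exact h3.dvd_of_dvd_mul_right h2

theorem decomp (r : ℕ) (hr : 1 ≤ r) (n : ℕ) (h : Powerful r n) :
    ∃ v : Fin r → ℕ, (∀ g, 0 < v g) ∧ ∏ g : Fin r, v g ^ (r + (g : ℕ)) = n := by
  induction n using Nat.recOnPosPrimePosCoprime with
  | zero => exact absurd h.1 (lt_irrefl 0)
  | one => exact ⟨fun _ => 1, fun _ => Nat.one_pos, by simp⟩
  | prime_pow p k hp hk =>
    have h1 : p ^ r ∣ p ^ k := h.2 p hp (dvd_pow_self p hk.ne')
    have hkr : r ≤ k := (Nat.pow_dvd_pow_iff_le_right hp.one_lt).1 h1
    have hr0 : 0 < r := hr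
    have hb : 1 ≤ k / r := (Nat.one_le_div_iff hr0).2 hkr
    have hdm : r * (k / r) + k % r = k := Nat.div_add_mod k r
    have hc : k % r < r := Nat.mod_lt k hr0
    by_cases hc0 : k % r = 0
    · refine ⟨fun g => if g = ⟨0, hr0⟩ then p ^ (k / r) else 1, ?_, ?_⟩
      · intro g
        dsimp only
        split
        · exact pow_pos hp.pos _
        · exact Nat.one_pos
      · rw [Finset.prod_eq_single (⟨0, hr0⟩ : Fin r)]
        · dsimp only
          rw [if_pos rfl, ← pow_mul]
          congr 1
          show k / r * (r + 0) = k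
          rw [add_zero, mul_comm]
          omega
        · intro g _ hg
          dsimp only
          rw [if_neg hg, one_pow]
        · intro hg
          exact absurd (Finset.mem_univ _) hg
    · have hne : (⟨0, hr0⟩ : Fin r) ≠ ⟨k % r, hc⟩ := by
        intro he
        rw [Fin.mk.injEq] at he
        exact hc0 he.symm
      refine ⟨fun g => if g = ⟨0, hr0⟩ then p ^ (k / r - 1) else
        if g = ⟨k % r, hc⟩ then p else 1, ?_, ?_⟩
      · intro g
        dsimp only
        split
        · exact pow_pos hp.pos _
        · split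
          · exact hp.pos
          · exact Nat.one_pos
      · rw [← Finset.mul_prod_erase Finset.univ _ (Finset.mem_univ (⟨0, hr0⟩ : Fin r)),
          ← Finset.mul_prod_erase (Finset.univ.erase (⟨0, hr0⟩ : Fin r)) _
            (Finset.mem_erase.2 ⟨hne.symm, Finset.mem_univ (⟨k % r, hc⟩ : Fin r)⟩)]
        rw [Finset.prod_eq_one]
        · dsimp only
          rw [if_pos rfl, if_neg hne.symm, if_pos rfl, mul_one, ← pow_mul, ← pow_add]
          congr 1
          show (k / r - 1) * (r + 0) + (r + k % r) = k
          obtain ⟨b, hb'⟩ := Nat.exists_eq_add_of_le hb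
          have h5 : k / r - 1 = b := by omega
          have h6 : r * (k / r) = r + b * r := by rw [hb']; ring
          rw [h5, add_zero]
          omega
        · intro g hg
          rw [Finset.mem_erase, Finset.mem_erase] at hg
          dsimp only
          rw [if_neg hg.2.1, if_neg hg.1, one_pow]
  | coprime a b ha hb hab iha ihb =>
    obtain ⟨v, hv, hv'⟩ := iha (decomp_coprime r a b hab h)
    obtain ⟨w, hw, hw'⟩ := ihb (decomp_coprime r b a hab.symm (by rwa [mul_comm]))
    refine ⟨fun g => v g * w g, fun g => Nat.mul_pos (hv g) (hw g), ?_⟩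
    simp only [mul_pow]
    rw [Finset.prod_mul_distrib, hv', hw']

end Pool.H65.PF
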