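import Mathlib

set_option autoImplicit false

/-!
# MP_89e8ce_nt: powerful sums of powerful numbers, definitions

`Powerful r n`: n is a positive integer and p^r divides n for every prime divisor p of n.
`fam r`: the family A_r of the problem.
`Slow f`: the function f grows slower than every positive power of N.
-/

namespace Pool.H65.PF

/-- `n` is a positive `r`-powerful integer. -/
def Powerful (r n : ℕ) : Prop := 0 < n ∧ ∀ p : ℕ, p.Prime → p ∣ n → p ^ r ∣ n

/-- The family `A_r`: sets of `r - 2` distinct positive `r`-powerful integers with greatest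
common divisor `1` and with `r`-powerful sum. -/
def fam (r : ℕ) : Set (Finset ℕ) :=
  {S | S.card = r - 2 ∧ S.gcd id = 1 ∧ (∀ s ∈ S, Powerful r s) ∧ Powerful r (∑ s ∈ S, s)}

/-- `f` grows slower than every positive power. -/
def Slow (f : ℕ → ℕ) : Prop :=
  ∀ ε : ℝ, 0 < ε → ∃ C : ℝ, ∀ N : ℕ, 1 ≤ N → (f N : ℝ) ≤ C * (N : ℝ) ^ ε

/-- The largest number of divisors of an integer in `[1, N]`. -/
def dmax (N : ℕ) : ℕ := (Finset.Icc 1 N).sup (fun n => n.divisors.card)

/-- The largest number of `u` in `[1, 3N]` all of whose primes divide `m`, for `m` in `[1, N]`. -/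
def rmax (N : ℕ) : ℕ :=
  (Finset.Icc 1 N).sup
    (fun m => ((Finset.Icc 1 (3 * N)).filter (fun u => u.primeFactors ⊆ m.primeFactors)).card)

/-- The number with coordinates `v (i, 0), v (i, 1), ...`: the product of the
`v (i, g) ^ (r + g)`. -/
def nm {q r : ℕ} (v : Fin q × Fin r → ℕ) (i : Fin q) : ℕ := ∏ g : Fin r, v (i, g) ^ (r + (g : ℕ))

/-- The coordinates outside `K` are replaced by `0`. -/
def mask {ι : Type*} [DecidableEq ι] (K : Finset ι) (v : ι → ℕ) : ι → ℕ :=
  fun x => if x ∈ K then v x else 0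

/-- Coordinates of a solution for `r = 4`. -/
def Tup4 (N : ℕ) (v : Fin 3 × Fin 4 → ℕ) : Prop :=
  (∀ x, 0 < v x) ∧ nm v 0 + nm v 1 = nm v 2 ∧ Nat.Coprime (nm v 0) (nm v 1) ∧ nm v 2 ≤ N

/-- Coordinates of a solution for `r = 5`, the first term being the largest. -/
def Tup5 (N : ℕ) (v : Fin 4 × Fin 5 → ℕ) : Prop :=
  (∀ x, 0 < v x) ∧ nm v 0 + nm v 1 + nm v 2 = nm v 3 ∧ nm v 1 ≤ nm v 0 ∧ nm v 2 ≤ nm v 0 ∧
    nm v 3 ≤ N

end Pool.H65.PF
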