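import Pool.Agent.H65.PF.Defs

set_option autoImplicit false

/-!
# Module SlowA: closure properties of `Slow` (60 lines)

All by unfolding: for a product use eps/2 for both factors and `Real.rpow_add`; note that the
constant of a function `f` with `f N ≤ C N ^ ε` can be replaced by `max C 0` (or is automatically
nonnegative at N = 1). `pow` by induction from `const` and `mul`. `log`: `Nat.log 2 N + 1` is at
most `Real.logb 2 N + 1`, and `Real.log N ≤ N ^ ε / ε` (`Real.log_le_rpow_div`), and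
`1 ≤ N ^ ε`.
-/

namespace Pool.H65.PF

theorem Slow.of_le {f g : ℕ → ℕ} (hg : Slow g) (h : ∀ N, 1 ≤ N → f N ≤ g N) : Slow f := by
  intro ε hε
  obtain ⟨C, hC⟩ := hg ε hε
  refine ⟨C, fun N hN => le_trans ?_ (hC N hN)⟩
  exact_mod_cast h N hN

theorem Slow.const (c : ℕ) : Slow (fun _ => c) := by
  intro ε hε
  refine ⟨c, fun N hN => ?_⟩
  have h1 : (1 : ℝ) ≤ (N : ℝ) ^ ε :=
    Real.one_le_rpow (by exact_mod_cast hN) hε.le
  have h2 : (0 : ℝ) ≤ (c : ℝ) := Nat.cast_nonneg c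
  nlinarith

theorem Slow.mul {f g : ℕ → ℕ} (hf : Slow f) (hg : Slow g) : Slow (fun N => f N * g N) := by
  intro ε hε
  obtain ⟨C, hC⟩ := hf (ε / 2) (half_pos hε)
  obtain ⟨D, hD⟩ := hg (ε / 2) (half_pos hε)
  refine ⟨max C 0 * max D 0, fun N hN => ?_⟩
  have hN0 : (0 : ℝ) < N := by exact_mod_cast hN
  have hp : (0 : ℝ) < (N : ℝ) ^ (ε / 2) := Real.rpow_pos_of_pos hN0 _
  have h1 : (f N : ℝ) ≤ max C 0 * (N : ℝ) ^ (ε / 2) :=
    (hC N hN).trans (mul_le_mul_of_nonneg_right (le_max_left _ _) hp.le)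
  have h2 : (g N : ℝ) ≤ max D 0 * (N : ℝ) ^ (ε / 2) :=
    (hD N hN).trans (mul_le_mul_of_nonneg_right (le_max_left _ _) hp.le)
  have h3 : (N : ℝ) ^ ε = (N : ℝ) ^ (ε / 2) * (N : ℝ) ^ (ε / 2) := by
    rw [← Real.rpow_add hN0, add_halves]
  have h4 : ((f N * g N : ℕ) : ℝ) = (f N : ℝ) * (g N : ℝ) := by push_cast; ring
  change ((f N * g N : ℕ) : ℝ) ≤ _
  rw [h4, h3]
  calc (f N : ℝ) * (g N : ℝ)
      ≤ (max C 0 * (N : ℝ) ^ (ε / 2)) * (max D 0 * (N : ℝ) ^ (ε / 2)) :=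
        mul_le_mul h1 h2 (Nat.cast_nonneg _) (by positivity)
    _ = max C 0 * max D 0 * ((N : ℝ) ^ (ε / 2) * (N : ℝ) ^ (ε / 2)) := by ring

theorem Slow.pow {f : ℕ → ℕ} (hf : Slow f) (n : ℕ) : Slow (fun N => f N ^ n) := by
  induction n with
  | zero => exact Slow.of_le (Slow.const 1) (fun N _ => by simp)
  | succ n ih => exact Slow.of_le (ih.mul hf) (fun N _ => by rw [pow_succ])

theorem Slow.log : Slow (fun N => Nat.log 2 N + 1) := by
  intro ε hε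
  refine ⟨1 / (ε * Real.log 2) + 1, fun N hN => ?_⟩
  have hN1 : (1 : ℝ) ≤ N := by exact_mod_cast hN
  have hN0 : (0 : ℝ) < N := by linarith
  have h1 : (1 : ℝ) ≤ (N : ℝ) ^ ε := Real.one_le_rpow hN1 hε.le
  have hl2 : 0 < Real.log 2 := Real.log_pos (by norm_num)
  have h2 : ((Nat.log 2 N : ℕ) : ℝ) ≤ Real.log N / Real.log 2 := by
    rw [le_div_iff₀ hl2]
    have h3 : ((2 : ℕ) ^ (Nat.log 2 N) : ℕ) ≤ N := Nat.pow_log_le_self 2 (by omega)
    have h4 : ((2 : ℝ) ^ (Nat.log 2 N)) ≤ N := by exact_mod_cast h3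
    have h5 := Real.log_le_log (by positivity) h4
    rwa [Real.log_pow] at h5
  have h3 : Real.log N ≤ (N : ℝ) ^ ε / ε := Real.log_le_rpow_div hN0.le hε
  have h4 : Real.log N / Real.log 2 ≤ 1 / (ε * Real.log 2) * (N : ℝ) ^ ε := by
    rw [div_le_iff₀ hl2]
    have h5 : 1 / (ε * Real.log 2) * (N : ℝ) ^ ε * Real.log 2 = (N : ℝ) ^ ε / ε := by
      field_simp
    rw [h5]
    exact h3
  have h5 : ((Nat.log 2 N + 1 : ℕ) : ℝ) = ((Nat.log 2 N : ℕ) : ℝ) + 1 := by push_cast; ring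
  change ((Nat.log 2 N + 1 : ℕ) : ℝ) ≤ _
  rw [h5, add_mul, one_mul]
  linarith

end Pool.H65.PF
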