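import Pool.Agent.H65.PF.Box4
import Pool.Agent.H65.PF.Boxes
import Pool.Agent.H65.PF.Decomp
import Pool.Agent.H65.PF.SlowA
import Pool.Agent.H65.PF.SlowD

set_option autoImplicit false

/-!
# Module Fin4: the theorem for r = 4 (100 lines)

* `tup4_card`: the set T of all v in `Fintype.piFinset (fun _ => Finset.Icc 1 N)` with Tup4 N v
  satisfies, by `boxes` (12 coordinates, `Fintype.card (Fin 3 × Fin 4) = 12`) and `box4`,
  T.card ≤ (log2 N + 1) ^ 12 * 514 * dmax N ^ 13 * N ^ (13/36). Every v with Tup4 N v lies in T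
  (v x ≤ nm v x.1 ≤ N).
* `fin4`: S in fam 4 has S = {a, b}, a ≠ b (`Finset.card_eq_two`), gcd 1 means a, b coprime, the
  sum is a + b; `decomp` for a, b, a + b gives the coordinates v with nm v 0 = a, nm v 1 = b,
  nm v 2 = a + b, so Tup4 N v if a + b ≤ N. Hence the set is contained in the image of T under
  v ↦ {nm v 0, nm v 1}; finite, and ncard ≤ T.card. The factor (log2 N + 1) ^ 12 * 514 * dmax ^ 13
  is Slow (`Slow.mul`, `Slow.pow`, `Slow.const`, `Slow.log`, `slow_dmax`).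
-/

namespace Pool.H65.PF

theorem tup4_card (N : ℕ) (hN : 1 ≤ N) (T : Finset (Fin 3 × Fin 4 → ℕ)) (hT : ∀ v ∈ T, Tup4 N v) :
    (T.card : ℝ) ≤ ((Nat.log 2 N + 1 : ℕ) : ℝ) ^ 12 *
      (514 * (dmax N : ℝ) ^ 13 * (N : ℝ) ^ ((13 : ℝ) / 36)) := by
  have h := boxes N T (fun v hv x => ⟨(hT v hv).1 x, (le_nm v (hT v hv).1 x).trans
    ((hT v hv).le x.1)⟩) (514 * (dmax N : ℝ) ^ 13 * (N : ℝ) ^ ((13 : ℝ) / 36)) (by
      intro k
      apply box4 N hN k
      intro v hv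
      rw [Finset.mem_filter] at hv
      exact ⟨hT v hv.1, hv.2⟩)
  have hc : Fintype.card (Fin 3 × Fin 4) = 12 := by simp
  rwa [hc] at h

theorem fin4 : ∃ f : ℕ → ℕ, Slow f ∧ ∀ N : ℕ, 1 ≤ N →
    {S : Finset ℕ | S ∈ fam 4 ∧ ∑ s ∈ S, s ≤ N}.Finite ∧
    ({S : Finset ℕ | S ∈ fam 4 ∧ ∑ s ∈ S, s ≤ N}.ncard : ℝ) ≤ f N * (N : ℝ) ^ ((13 : ℝ) / 36) := by
  refine ⟨fun N => (Nat.log 2 N + 1) ^ 12 * (514 * dmax N ^ 13),
    (Slow.log.pow 12).mul ((Slow.const 514).mul (slow_dmax.pow 13)), ?_⟩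
  intro N hN
  classical
  set T : Finset (Fin 3 × Fin 4 → ℕ) :=
    (Fintype.piFinset (fun _ => Finset.Icc 1 N)).filter (fun v => Tup4 N v) with hT
  have hTT : ∀ v ∈ T, Tup4 N v := by
    intro v hv
    rw [hT, Finset.mem_filter] at hv
    exact hv.2
  have hsub : {S : Finset ℕ | S ∈ fam 4 ∧ ∑ s ∈ S, s ≤ N} ⊆
      (T.image (fun v => ({nm v 0, nm v 1} : Finset ℕ)) : Finset (Finset ℕ)) := by
    rintro S ⟨⟨h1, h2, h3, h4⟩, h5⟩
    obtain ⟨a, b, hab, rfl⟩ := Finset.card_eq_two.1 h1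
    have ha := h3 a (by simp)
    have hb := h3 b (by simp)
    rw [Finset.sum_pair hab] at h4 h5
    have hg : Nat.Coprime a b := by
      have h6 : ({a, b} : Finset ℕ).gcd id = Nat.gcd a b := by
        rw [Finset.gcd_insert, Finset.gcd_singleton]
        simp
        rfl
      rw [h6] at h2
      exact h2
    obtain ⟨v0, p0, e0⟩ := decomp 4 (by norm_num) a ha
    obtain ⟨v1, p1, e1⟩ := decomp 4 (by norm_num) b hb
    obtain ⟨v2, p2, e2⟩ := decomp 4 (by norm_num) (a + b) h4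
    set v : Fin 3 × Fin 4 → ℕ := fun x => ![v0, v1, v2] x.1 x.2 with hv
    have n0 : nm v 0 = a := e0
    have n1 : nm v 1 = b := e1
    have n2 : nm v 2 = a + b := e2
    have hpos : ∀ x, 0 < v x := by
      rintro ⟨x, g⟩
      fin_cases x
      · exact p0 g
      · exact p1 g
      · exact p2 g
    have htup : Tup4 N v := ⟨hpos, by rw [n0, n1, n2], by rw [n0, n1]; exact hg, by
      rw [n2]; exact h5⟩
    rw [Finset.mem_coe, Finset.mem_image]
    refine ⟨v, ?_, by rw [n0, n1]⟩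
    rw [hT, Finset.mem_filter, Fintype.mem_piFinset]
    refine ⟨fun x => ?_, htup⟩
    rw [Finset.mem_Icc]
    exact ⟨hpos x, (le_nm v hpos x).trans (htup.le x.1)⟩
  refine ⟨Set.Finite.subset (Finset.finite_toSet _) hsub, ?_⟩
  have h7 : ({S : Finset ℕ | S ∈ fam 4 ∧ ∑ s ∈ S, s ≤ N}.ncard : ℝ) ≤ (T.card : ℝ) := by
    have h8 := Set.ncard_le_ncard hsub (Finset.finite_toSet _)
    rw [Set.ncard_coe_finset] at h8
    exact_mod_cast h8.trans Finset.card_image_le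
  refine h7.trans ((tup4_card N hN T hTT).trans (le_of_eq ?_))
  push_cast
  ring

end Pool.H65.PF
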