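import Pool.Agent.H65.PF.Fin4

set_option autoImplicit false

/-!
# Module Main: assembly
-/

namespace Pool.H65.PF

theorem of_slow (P : ℕ → Set (Finset ℕ)) (θ : ℝ)
    (h : ∃ f : ℕ → ℕ, Slow f ∧ ∀ N : ℕ, 1 ≤ N → (P N).Finite ∧
      ((P N).ncard : ℝ) ≤ f N * (N : ℝ) ^ θ) (ε : ℝ) (hε : 0 < ε) :
    ∃ C : ℝ, ∀ N : ℕ, 1 ≤ N → (P N).Finite ∧ ((P N).ncard : ℝ) ≤ C * (N : ℝ) ^ (θ + ε) := by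
  obtain ⟨f, hf, h⟩ := h
  obtain ⟨C, hC⟩ := hf ε hε
  refine ⟨C, fun N hN => ⟨(h N hN).1, (h N hN).2.trans ?_⟩⟩
  have hN0 : (0 : ℝ) < N := by exact_mod_cast hN
  have h1 : (0 : ℝ) ≤ (N : ℝ) ^ θ := Real.rpow_nonneg hN0.le _
  calc (f N : ℝ) * (N : ℝ) ^ θ ≤ C * (N : ℝ) ^ ε * (N : ℝ) ^ θ :=
        mul_le_mul_of_nonneg_right (hC N hN) h1
    _ = C * (N : ℝ) ^ (θ + ε) := by rw [Real.rpow_add hN0]; ring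

theorem main (ε : ℝ) (hε : 0 < ε) : ∃ C : ℝ, ∀ N : ℕ, 1 ≤ N →
    {S : Finset ℕ | S ∈ fam 4 ∧ ∑ s ∈ S, s ≤ N}.Finite ∧
    ({S : Finset ℕ | S ∈ fam 4 ∧ ∑ s ∈ S, s ≤ N}.ncard : ℝ) ≤
      C * (N : ℝ) ^ ((13 : ℝ) / 36 + ε) :=
  of_slow _ _ fin4 ε hε

end Pool.H65.PF
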