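import Pool.Agent.H65.PF.T4
import Pool.Agent.H65.PF.Mask
import Pool.Agent.H65.PF.Rest

set_option autoImplicit false

/-!
# Module P4: first counting strategy for r = 4 (80 lines)

T is a set of solutions in the box k. Apply `fiber_bound` with
K = {x | x.1 = i or x.1 = j} (the sum of k over K is the exponent below: write K as the disjoint
union of two images, or `Finset.sum_product` / `Finset.sum_filter`). In a fibre (nonempty, v0 in
it) the coordinates of i and j are fixed, so nm v i, nm v j are fixed, and nm v l is fixed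
(`Tup4.third`, l the third index), at most N and at least 1; `rest_count` with w = v0 gives
dmax N ^ 4. (The bound in `fiber_bound` is for all w: an empty fibre has card 0.)
-/

namespace Pool.H65.PF

private theorem P4_third : ∀ i j : Fin 3, i ≠ j →
    ∃ l : Fin 3, i ≠ l ∧ j ≠ l ∧ ∀ a, a ≠ l → a = i ∨ a = j := by
  decide

private theorem P4_sum (k : Fin 3 × Fin 4 → ℕ) {i j : Fin 3} (hij : i ≠ j) :
    ∑ x ∈ Finset.univ.filter (fun x : Fin 3 × Fin 4 => x.1 = i ∨ x.1 = j), k x =
      ∑ g, k (i, g) + ∑ g, k (j, g) := by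
  rw [Finset.sum_filter, Fintype.sum_prod_type]
  have h : ∀ a : Fin 3, (∑ g : Fin 4, if ((a, g) : Fin 3 × Fin 4).1 = i ∨
      ((a, g) : Fin 3 × Fin 4).1 = j then k (a, g) else 0) =
      (if a = i then ∑ g, k (a, g) else 0) + (if a = j then ∑ g, k (a, g) else 0) := by
    intro a
    by_cases h1 : a = i
    · have h2 : a ≠ j := by rw [h1]; exact hij
      simp only [if_pos h1, if_neg h2, add_zero]
      exact Finset.sum_congr rfl fun g _ => if_pos (Or.inl h1)
    · by_cases h2 : a = j
      · simp only [if_neg h1, if_pos h2, zero_add]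
        exact Finset.sum_congr rfl fun g _ => if_pos (Or.inr h2)
      · simp only [if_neg h1, if_neg h2, add_zero]
        apply Finset.sum_eq_zero
        intro g _
        rw [if_neg]
        rintro (h | h)
        · exact h1 h
        · exact h2 h
  rw [Finset.sum_congr rfl fun a _ => h a, Finset.sum_add_distrib, Finset.sum_ite_eq',
    Finset.sum_ite_eq', if_pos (Finset.mem_univ _), if_pos (Finset.mem_univ _)]

theorem P4 (N : ℕ) (k : Fin 3 × Fin 4 → ℕ) (T : Finset (Fin 3 × Fin 4 → ℕ))
    (hT : ∀ v ∈ T, Tup4 N v ∧ ∀ x, Nat.log 2 (v x) = k x) (i j : Fin 3) (hij : i ≠ j) :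
    (T.card : ℝ) ≤ (dmax N : ℝ) ^ 4 * 2 ^ (∑ g, k (i, g) + ∑ g, k (j, g)) := by
  obtain ⟨l, hil, hjl, hl⟩ := P4_third i j hij
  rw [← P4_sum k hij]
  apply fiber_bound
  · intro v hv x
    exact ⟨(hT v hv).1.1 x, (hT v hv).2 x⟩
  · intro w
    set K := Finset.univ.filter (fun x : Fin 3 × Fin 4 => x.1 = i ∨ x.1 = j) with hK
    set F := T.filter (fun v => mask K v = w) with hF
    rcases F.eq_empty_or_nonempty with h0 | ⟨v0, hv0⟩
    · rw [h0, Finset.card_empty, Nat.cast_zero]
      positivity
    · rw [hF, Finset.mem_filter] at hv0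
      have t0 := (hT v0 hv0.1).1
      have hag : ∀ v ∈ F, ∀ x : Fin 3 × Fin 4, x.1 ≠ l → v x = v0 x := by
        intro v hv x hx
        rw [hF, Finset.mem_filter] at hv
        have h1 : mask K v x = mask K v0 x := by rw [hv.2, hv0.2]
        have h2 : x ∈ K := by
          rw [hK, Finset.mem_filter]
          exact ⟨Finset.mem_univ _, hl x.1 hx⟩
        unfold mask at h1
        rwa [if_pos h2, if_pos h2] at h1
      have hnm : ∀ v ∈ F, ∀ a : Fin 3, a ≠ l → nm v a = nm v0 a := by
        intro v hv a ha
        unfold nm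
        exact Finset.prod_congr rfl fun g _ => by rw [hag v hv (a, g) ha]
      have h3 := rest_count N (nm v0 l) (nm_pos v0 t0.1 l) (t0.le l) l F v0 hag (by
        intro v hv
        have hv' := hv
        rw [hF, Finset.mem_filter] at hv'
        exact Tup4.third (hT v hv'.1).1 t0 hij hil hjl (hnm v hv i hil) (hnm v hv j hjl))
      exact_mod_cast h3

end Pool.H65.PF
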