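import Mathlib

set_option autoImplicit false

/-!
# Module Pair: coprime pairs with a given ratio modulo Q (100 lines)

Z a finite set of pairs (u, v) of positive coprime integers with u ≤ U, V / 8 ≤ v ≤ V and
u = t v in ZMod Q, t fixed. Then |Z| ≤ 1 + 8 U V / Q.

Proof: for different pairs (u, v), (u', v') in Z one has u v' ≠ u' v (coprime, positive:
`Nat.Coprime` pairs are determined by their ratio) and u v' - u' v = t v v' - t v' v = 0 in
ZMod Q, so |u v' - u' v| ≥ Q and |u / v - u' / v'| ≥ Q / (v v') ≥ Q / V ^ 2. Hence the real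
numbers V ^ 2 u / (Q v) are pairwise at distance ≥ 1 and their floors
`⌊V ^ 2 u / (Q v)⌋₊` are different natural numbers (if a ≥ b + 1 then ⌊a⌋ > ⌊b⌋); they are at
most V ^ 2 U / (Q (V / 8)) = 8 U V / Q. So Z injects into range (⌊8 U V / Q⌋₊ + 1).
-/

namespace Pool.H65.PF

private theorem pair_eq {u v u' v' : ℕ} (hc : Nat.Coprime u v) (hc' : Nat.Coprime u' v')
    (hv : 1 ≤ v) (hu : 1 ≤ u) (h : u * v' = u' * v) : u = u' ∧ v = v' := by
  have h1 : u ∣ u' := by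
    have : u ∣ u' * v := ⟨v', h.symm⟩
    exact hc.dvd_of_dvd_mul_right this
  have h2 : u' ∣ u := by
    have : u' ∣ u * v' := ⟨v, h⟩
    exact hc'.dvd_of_dvd_mul_right this
  have h3 : u = u' := Nat.dvd_antisymm h1 h2
  subst h3
  have _ := hv
  exact ⟨rfl, (Nat.eq_of_mul_eq_mul_left hu h).symm⟩

theorem pair_count (Q U V : ℕ) (hQ : 1 ≤ Q) (hV : 1 ≤ V) (t : ZMod Q) (Z : Finset (ℕ × ℕ))
    (hZ : ∀ z ∈ Z, 1 ≤ z.1 ∧ 1 ≤ z.2 ∧ Nat.Coprime z.1 z.2 ∧ z.1 ≤ U ∧ V ≤ 8 * z.2 ∧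
      z.2 ≤ V ∧ (z.1 : ZMod Q) = t * (z.2 : ZMod Q)) :
    (Z.card : ℝ) ≤ 1 + 8 * U * V / Q := by
  classical
  have hQ0 : (0 : ℝ) < Q := by exact_mod_cast hQ
  have hV0 : (0 : ℝ) < V := by exact_mod_cast hV
  set φ : ℕ × ℕ → ℝ := fun z => (V : ℝ) ^ 2 * z.1 / (Q * z.2) with hφ
  have hinj : Set.InjOn (fun z => ⌊φ z⌋₊) (Z : Set (ℕ × ℕ)) := by
    intro z hz z' hz' he
    rw [Finset.mem_coe] at hz hz'
    obtain ⟨a1, a2, a3, a4, a5, a6, a7⟩ := hZ z hz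
    obtain ⟨b1, b2, b3, b4, b5, b6, b7⟩ := hZ z' hz'
    by_contra hne
    have hne' : z.1 * z'.2 ≠ z'.1 * z.2 := by
      intro h
      have := pair_eq a3 b3 a2 a1 h
      exact hne (Prod.ext this.1 this.2)
    have hdvd : (Q : ℤ) ∣ (z.1 : ℤ) * z'.2 - (z'.1 : ℤ) * z.2 := by
      rw [← ZMod.intCast_zmod_eq_zero_iff_dvd]
      push_cast
      rw [a7, b7]
      ring
    have hne2 : (z.1 : ℤ) * z'.2 - (z'.1 : ℤ) * z.2 ≠ 0 := by
      intro h
      apply hne'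
      have : (z.1 : ℤ) * z'.2 = (z'.1 : ℤ) * z.2 := by linarith
      exact_mod_cast this
    have habs : (Q : ℤ) ≤ |(z.1 : ℤ) * z'.2 - (z'.1 : ℤ) * z.2| :=
      Int.le_of_dvd (abs_pos.2 hne2) ((dvd_abs _ _).2 hdvd)
    have habs' : (Q : ℝ) ≤ |(z.1 : ℝ) * z'.2 - (z'.1 : ℝ) * z.2| := by
      exact_mod_cast habs
    have hz2 : (0 : ℝ) < z.2 := by exact_mod_cast a2
    have hz2' : (0 : ℝ) < z'.2 := by exact_mod_cast b2
    have hv1 : (z.2 : ℝ) ≤ V := by exact_mod_cast a6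
    have hv2 : (z'.2 : ℝ) ≤ V := by exact_mod_cast b6
    have hdiff : φ z - φ z' = (V : ℝ) ^ 2 / (Q * (z.2 * z'.2)) *
        ((z.1 : ℝ) * z'.2 - (z'.1 : ℝ) * z.2) := by
      simp only [hφ]
      field_simp
    have hge : 1 ≤ |φ z - φ z'| := by
      rw [hdiff, abs_mul, abs_of_pos (by positivity : 0 < (V : ℝ) ^ 2 / (Q * (z.2 * z'.2)))]
      have h1 : (1 : ℝ) ≤ (V : ℝ) ^ 2 / (Q * (z.2 * z'.2)) * Q := by
        rw [div_mul_eq_mul_div, le_div_iff₀ (by positivity), one_mul]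
        have : (z.2 : ℝ) * z'.2 ≤ V ^ 2 := by
          rw [pow_two]
          exact mul_le_mul hv1 hv2 hz2'.le hV0.le
        nlinarith
      exact le_trans h1 (mul_le_mul_of_nonneg_left habs' (by positivity))
    have hp : 0 ≤ φ z := by simp only [hφ]; positivity
    have hp' : 0 ≤ φ z' := by simp only [hφ]; positivity
    have f1 := Nat.floor_le hp
    have f2 := Nat.lt_floor_add_one (φ z)
    have f3 := Nat.floor_le hp'
    have f4 := Nat.lt_floor_add_one (φ z')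
    have he' : ⌊φ z⌋₊ = ⌊φ z'⌋₊ := he
    rw [he'] at f1 f2
    have : |φ z - φ z'| < 1 := by
      rw [abs_lt]
      constructor <;> linarith
    linarith
  have hmaps : ∀ z ∈ Z, ⌊φ z⌋₊ ∈ Finset.range (⌊8 * (U : ℝ) * V / Q⌋₊ + 1) := by
    intro z hz
    obtain ⟨a1, a2, a3, a4, a5, a6, a7⟩ := hZ z hz
    rw [Finset.mem_range, Nat.lt_succ_iff]
    apply Nat.floor_le_floor
    have hz2 : (0 : ℝ) < z.2 := by exact_mod_cast a2
    have h1 : (z.1 : ℝ) ≤ U := by exact_mod_cast a4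
    have h2 : (V : ℝ) ≤ 8 * z.2 := by exact_mod_cast a5
    simp only [hφ]
    rw [div_le_div_iff₀ (by positivity) hQ0]
    have h3 : (z.1 : ℝ) * V ≤ U * (8 * z.2) := mul_le_mul h1 h2 hV0.le (Nat.cast_nonneg _)
    calc (V : ℝ) ^ 2 * z.1 * Q = ((z.1 : ℝ) * V) * (V * Q) := by ring
      _ ≤ (U * (8 * z.2)) * (V * Q) := mul_le_mul_of_nonneg_right h3 (by positivity)
      _ = 8 * (U : ℝ) * V * (Q * z.2) := by ring
  have hcard : Z.card ≤ ⌊8 * (U : ℝ) * V / Q⌋₊ + 1 := by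
    have := Finset.card_le_card_of_injOn (fun z => ⌊φ z⌋₊) hmaps hinj
    rwa [Finset.card_range] at this
  have hfl : ((⌊8 * (U : ℝ) * V / Q⌋₊ : ℕ) : ℝ) ≤ 8 * (U : ℝ) * V / Q :=
    Nat.floor_le (by positivity)
  have hcard' : (Z.card : ℝ) ≤ ((⌊8 * (U : ℝ) * V / Q⌋₊ : ℕ) : ℝ) + 1 := by
    exact_mod_cast hcard
  linarith

end Pool.H65.PF
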