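import Mathlib

set_option autoImplicit false

/-!
# Module Roots: the number of e-th roots modulo Q (150 lines)

`roots`: for e ≥ 1, Q ≥ 1 and every c in ZMod Q the equation t ^ e = c has at most
`(e ^ 3) ^ ω(Q)` solutions t which are units.

Proof. (1) The solutions form a coset of the subgroup t ^ e = 1 of the units. (2) Chinese
remainder theorem, induction with `Nat.recOnPosPrimePosCoprime`. (3) Prime powers: for odd p the
units are cyclic, for powers of 2 the powers of 5 form a subgroup of index 2.
-/

namespace Pool.H65.PF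

private noncomputable def roots_f (e Q : ℕ) : ℕ := Nat.card {t : (ZMod Q)ˣ // t ^ e = 1}

private theorem roots_cyc {G : Type*} [CommGroup G] [Finite G] [IsCyclic G] (e : ℕ) (he : 1 ≤ e) :
    Nat.card {t : G // t ^ e = 1} ≤ e := by
  classical
  have := Fintype.ofFinite G
  rw [Nat.card_eq_fintype_card, Fintype.card_subtype]
  exact IsCyclic.card_pow_eq_one_le he

private theorem roots_ind2 {G : Type*} [CommGroup G] [Finite G] (g : G)
    (hg : (Subgroup.zpowers g).index = 2) (e : ℕ) (he : 1 ≤ e) :
    Nat.card {t : G // t ^ e = 1} ≤ 2 * e := by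
  classical
  have := Fintype.ofFinite G
  set H := Subgroup.zpowers g with hH
  set K : Finset G := Finset.univ.filter (fun t => t ^ e = 1) with hK
  have hKc : Nat.card {t : G // t ^ e = 1} = K.card := by
    rw [Nat.card_eq_fintype_card, Fintype.card_subtype]
  rw [hKc]
  set KH : Finset G := K.filter (fun t => t ∈ H) with hKH
  have h1 : KH.card ≤ e := by
    have h2 : Nat.card {t : H // t ^ e = 1} ≤ e := roots_cyc e he
    have h3 : KH.card ≤ Nat.card {t : H // t ^ e = 1} := by
      have h0 : Nat.card KH = KH.card := by simp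
      rw [← h0]
      refine Nat.card_le_card_of_injective
        (fun x => ⟨⟨x.1, (Finset.mem_filter.1 x.2).2⟩, ?_⟩) ?_
      · have h1 := (Finset.mem_filter.1 (Finset.mem_filter.1 x.2).1).2
        ext
        simpa using h1
      · intro a b hab
        simp only [Subtype.mk.injEq] at hab
        exact Subtype.ext hab
    exact h3.trans h2
  by_cases hne : (K.filter (fun t => t ∉ H)).Nonempty
  · obtain ⟨t0, ht0⟩ := hne
    have ht0' := Finset.mem_filter.1 ht0
    have h4 : (K.filter (fun t => t ∉ H)).card ≤ KH.card := by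
      refine Finset.card_le_card_of_injOn (fun t => t * t0) ?_ ?_
      · intro t ht
        have ht' := Finset.mem_filter.1 (Finset.mem_coe.1 ht)
        simp only [hKH, hK, Finset.coe_filter, Finset.mem_filter, Finset.mem_univ, true_and]
        refine ⟨?_, ?_⟩
        · have a1 : t ^ e = 1 := (Finset.mem_filter.1 ht'.1).2
          have a2 : t0 ^ e = 1 := (Finset.mem_filter.1 ht0'.1).2
          rw [mul_pow, a1, a2, one_mul]
        · rw [Subgroup.mul_mem_iff_of_index_two hg]
          exact iff_of_false ht'.2 ht0'.2
      · intro a _ b _ hab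
        exact mul_right_cancel hab
    have h5 : KH.card + (K.filter (fun t => t ∉ H)).card = K.card := by
      rw [hKH]
      exact Finset.card_filter_add_card_filter_not (s := K) (fun t => t ∈ H)
    omega
  · rw [Finset.not_nonempty_iff_eq_empty] at hne
    have h5 : KH.card + (K.filter (fun t => t ∉ H)).card = K.card := by
      rw [hKH]
      exact Finset.card_filter_add_card_filter_not (s := K) (fun t => t ∈ H)
    rw [hne, Finset.card_empty] at h5
    omega

private theorem roots_prime_pow (e : ℕ) (he : 1 ≤ e) (p k : ℕ) (hp : p.Prime) (hk : 1 ≤ k) :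
    roots_f e (p ^ k) ≤ e ^ 3 := by
  have hp0 : 0 < p ^ k := pow_pos hp.pos k
  haveI : NeZero (p ^ k) := ⟨hp0.ne'⟩
  have hee : e ≤ e ^ 3 := Nat.le_self_pow (by norm_num) e
  unfold roots_f
  by_cases hp2 : p = 2
  · subst hp2
    by_cases hk2 : k ≤ 2
    · haveI : IsCyclic (ZMod (2 ^ k))ˣ := (ZMod.isCyclic_units_two_pow_iff k).2 hk2
      exact (roots_cyc e he).trans hee
    · obtain ⟨n, rfl⟩ : ∃ n, k = n + 2 := ⟨k - 2, by omega⟩
      by_cases he1 : e = 1
      · subst he1
        have h1 : Nat.card {t : (ZMod (2 ^ (n + 2)))ˣ // t ^ 1 = 1} = 1 := by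
          rw [Nat.card_eq_one_iff_unique]
          refine ⟨⟨fun a b => Subtype.ext ?_⟩, ⟨⟨1, one_pow 1⟩⟩⟩
          have ha := a.2
          have hb := b.2
          rw [pow_one] at ha hb
          rw [ha, hb]
        rw [h1]
        norm_num
      · have hu : IsUnit (5 : ZMod (2 ^ (n + 2))) := by
          have h5 : Nat.Coprime 5 (2 ^ (n + 2)) := Nat.Coprime.pow_right _ (by norm_num)
          exact (ZMod.isUnit_iff_coprime 5 (2 ^ (n + 2))).2 h5
        obtain ⟨u, hu⟩ := hu
        have hou : orderOf u = 2 ^ n := by
          rw [← orderOf_units, hu]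
          exact ZMod.orderOf_five n
        have hidx : (Subgroup.zpowers u).index = 2 := by
          have h1 := (Subgroup.zpowers u).card_mul_index
          rw [Nat.card_zpowers, hou, Nat.card_eq_fintype_card, ZMod.card_units_eq_totient,
            Nat.totient_prime_pow_succ Nat.prime_two] at h1
          have h2 : (0 : ℕ) < 2 ^ n := by positivity
          have h3 : 2 ^ n * (Subgroup.zpowers u).index = 2 ^ n * 2 := by
            rw [h1, pow_succ]
            norm_num
          exact Nat.eq_of_mul_eq_mul_left h2 h3
        have h2 := roots_ind2 u hidx e he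
        refine h2.trans ?_
        have h3 : 2 ≤ e := by omega
        nlinarith [Nat.mul_le_mul h3 h3, sq_nonneg (e : ℤ)]
  · haveI : IsCyclic (ZMod (p ^ k))ˣ := ZMod.isCyclic_units_of_prime_pow p hp hp2 k
    exact (roots_cyc e he).trans hee

private theorem roots_mul (e a b : ℕ) (h : Nat.Coprime a b) :
    roots_f e (a * b) = roots_f e a * roots_f e b := by
  unfold roots_f
  rw [← Nat.card_prod]
  let φ : (ZMod (a * b))ˣ ≃* (ZMod a)ˣ × (ZMod b)ˣ :=
    (Units.mapEquiv (ZMod.chineseRemainder h).toMulEquiv).trans MulEquiv.prodUnits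
  refine Nat.card_congr ?_
  refine Equiv.trans (Equiv.subtypeEquiv φ.toEquiv (q := fun z => z ^ e = 1) ?_) ?_
  · intro t
    constructor
    · intro ht
      have := congrArg φ ht
      simpa using this
    · intro ht
      have h1 : φ (t ^ e) = φ 1 := by
        rw [map_pow, map_one]
        exact ht
      exact φ.injective h1
  · exact
      { toFun := fun z => (⟨z.1.1, by
            have := congrArg Prod.fst z.2
            simpa using this⟩, ⟨z.1.2, by
            have := congrArg Prod.snd z.2
            simpa using this⟩)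
        invFun := fun z => ⟨(z.1.1, z.2.1), by
          ext1
          · simpa using z.1.2
          · simpa using z.2.2⟩
        left_inv := fun z => rfl
        right_inv := fun z => rfl }

private theorem roots_f_le (e : ℕ) (he : 1 ≤ e) (Q : ℕ) (hQ : 1 ≤ Q) :
    roots_f e Q ≤ (e ^ 3) ^ Q.primeFactors.card := by
  induction Q using Nat.recOnPosPrimePosCoprime with
  | zero => omega
  | one =>
    simp only [Nat.primeFactors_one, Finset.card_empty, pow_zero]
    unfold roots_f
    have : Subsingleton (ZMod 1)ˣ := inferInstance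
    have h1 : Finite (ZMod 1)ˣ := inferInstance
    exact Finite.card_le_one_iff_subsingleton.2 inferInstance
  | prime_pow p k hp hk =>
    rw [Nat.primeFactors_prime_pow hk.ne' hp]
    simpa using roots_prime_pow e he p k hp hk
  | coprime a b ha hb hab iha ihb =>
    have h1 := iha (by omega)
    have h2 := ihb (by omega)
    rw [roots_mul e a b hab, hab.primeFactors_mul, Finset.card_union_of_disjoint
      hab.disjoint_primeFactors, pow_add]
    exact Nat.mul_le_mul h1 h2

theorem roots (e : ℕ) (he : 1 ≤ e) (Q : ℕ) (hQ : 1 ≤ Q) (c : ZMod Q) :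
    {t : ZMod Q | IsUnit t ∧ t ^ e = c}.Finite ∧
      {t : ZMod Q | IsUnit t ∧ t ^ e = c}.ncard ≤ (e ^ 3) ^ Q.primeFactors.card := by
  haveI : NeZero Q := ⟨by omega⟩
  refine ⟨Set.toFinite _, ?_⟩
  refine le_trans ?_ (roots_f_le e he Q hQ)
  by_cases hne : {t : ZMod Q | IsUnit t ∧ t ^ e = c}.Nonempty
  · obtain ⟨t0, ht0⟩ := hne
    obtain ⟨⟨u0, rfl⟩, hu0⟩ := ht0
    unfold roots_f
    rw [← Nat.card_coe_set_eq]
    refine Nat.card_le_card_of_injective (fun x => ⟨x.2.1.unit * u0⁻¹, ?_⟩) ?_
    · have h1 : x.2.1.unit ^ e = u0 ^ e := by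
        ext
        push_cast
        rw [hu0]
        simpa using x.2.2
      rw [mul_pow, h1, ← mul_pow, mul_inv_cancel, one_pow]
    · intro a b hab
      simp only [Subtype.mk.injEq, mul_left_inj] at hab
      have h2 := congrArg (fun z : (ZMod Q)ˣ => (z : ZMod Q)) hab
      exact Subtype.ext (by simpa using h2)
  · rw [Set.not_nonempty_iff_eq_empty] at hne
    rw [hne, Set.ncard_empty]
    exact Nat.zero_le _

end Pool.H65.PF
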