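import Pool.Agent.H65.PF.Defs

set_option autoImplicit false

/-!
# Module T4: elementary facts on `Tup4` (90 lines)

* `nm_split`: `Finset.mul_prod_erase`.
* coprimality: n0, n1 coprime and n0 + n1 = n2 give all three pairs coprime
  (`Nat.coprime_add_self_right` and friends); case analysis on i, j in Fin 3 (`fin_cases`).
* `third`: the relation determines each number from the other two.
* `modeq`: if Q divides n_l then n_i = n_j or n_i = - n_j in ZMod Q (l = 2: the sum n0 + n1 is 0;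
  l = 0: n1 = n2; l = 1: n0 = n2).
-/

namespace Pool.H65.PF

theorem nm_split {q r : ℕ} (v : Fin q × Fin r → ℕ) (i : Fin q) (f : Fin r) :
    nm v i = (∏ g ∈ Finset.univ.erase f, v (i, g) ^ (r + (g : ℕ))) * v (i, f) ^ (r + (f : ℕ)) := by
  unfold nm
  rw [mul_comm]
  exact (Finset.mul_prod_erase Finset.univ (fun g : Fin r => v (i, g) ^ (r + (g : ℕ)))
    (Finset.mem_univ f)).symm

theorem nm_pos {q r : ℕ} (v : Fin q × Fin r → ℕ) (h : ∀ x, 0 < v x) (i : Fin q) : 1 ≤ nm v i := by
  unfold nm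
  exact Nat.one_le_iff_ne_zero.2 (Finset.prod_ne_zero_iff.2 (fun g _ => pow_ne_zero _ (h (i, g)).ne'))

theorem le_nm {q r : ℕ} (v : Fin q × Fin r → ℕ) (h : ∀ x, 0 < v x) (x : Fin q × Fin r) :
    v x ≤ nm v x.1 := by
  obtain ⟨i, f⟩ := x
  have hdvd : v (i, f) ^ (r + (f : ℕ)) ∣ nm v i := by
    rw [nm_split v i f]
    exact dvd_mul_left _ _
  have hr : r + (f : ℕ) ≠ 0 := by
    have := f.2
    omega
  have h1 : v (i, f) ∣ nm v i := (dvd_pow_self _ hr).trans hdvd
  exact Nat.le_of_dvd (nm_pos v h i) h1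

theorem Tup4.le {N : ℕ} {v : Fin 3 × Fin 4 → ℕ} (h : Tup4 N v) (i : Fin 3) : nm v i ≤ N := by
  obtain ⟨_, h1, _, h3⟩ := h
  fin_cases i
  · show nm v 0 ≤ N
    omega
  · show nm v 1 ≤ N
    omega
  · show nm v 2 ≤ N
    omega

theorem Tup4.coprime {N : ℕ} {v : Fin 3 × Fin 4 → ℕ} (h : Tup4 N v) {i j : Fin 3} (hij : i ≠ j) :
    Nat.Coprime (nm v i) (nm v j) := by
  obtain ⟨_, h1, h2, _⟩ := h
  have h02 : Nat.Coprime (nm v 0) (nm v 2) := by
    rw [← h1]
    exact Nat.coprime_self_add_right.2 h2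
  have h12 : Nat.Coprime (nm v 1) (nm v 2) := by
    rw [← h1]
    exact Nat.coprime_add_self_right.2 h2.symm
  fin_cases i <;> fin_cases j
  · exact absurd rfl hij
  · exact h2
  · exact h02
  · exact h2.symm
  · exact absurd rfl hij
  · exact h12
  · exact h02.symm
  · exact h12.symm
  · exact absurd rfl hij

theorem Tup4.third {N : ℕ} {v v' : Fin 3 × Fin 4 → ℕ} (h : Tup4 N v) (h' : Tup4 N v')
    {i j l : Fin 3} (hij : i ≠ j) (hil : i ≠ l) (hjl : j ≠ l) (hi : nm v i = nm v' i)
    (hj : nm v j = nm v' j) : nm v l = nm v' l := by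
  obtain ⟨_, h1, _, _⟩ := h
  obtain ⟨_, h1', _, _⟩ := h'
  have key : ∀ a b c : Fin 3, a ≠ b → a ≠ c → b ≠ c → nm v a = nm v' a → nm v b = nm v' b →
      nm v c = nm v' c := by
    intro a b c hab hac hbc ha hb
    fin_cases a <;> fin_cases b <;> fin_cases c <;>
      first
        | exact absurd rfl hab
        | exact absurd rfl hac
        | exact absurd rfl hbc
        | (change nm v 0 = nm v' 0 at ha
           change nm v 1 = nm v' 1 at hb
           show nm v 2 = nm v' 2
           omega)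
        | (change nm v 0 = nm v' 0 at ha
           change nm v 2 = nm v' 2 at hb
           show nm v 1 = nm v' 1
           omega)
        | (change nm v 1 = nm v' 1 at ha
           change nm v 0 = nm v' 0 at hb
           show nm v 2 = nm v' 2
           omega)
        | (change nm v 1 = nm v' 1 at ha
           change nm v 2 = nm v' 2 at hb
           show nm v 0 = nm v' 0
           omega)
        | (change nm v 2 = nm v' 2 at ha
           change nm v 0 = nm v' 0 at hb
           show nm v 1 = nm v' 1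
           omega)
        | (change nm v 2 = nm v' 2 at ha
           change nm v 1 = nm v' 1 at hb
           show nm v 0 = nm v' 0
           omega)
  exact key i j l hij hil hjl hi hj

theorem Tup4.modeq {N : ℕ} {v : Fin 3 × Fin 4 → ℕ} (h : Tup4 N v) {i j l : Fin 3} (hij : i ≠ j)
    (hil : i ≠ l) (hjl : j ≠ l) (Q : ℕ) (hQ : Q ∣ nm v l) :
    ((nm v i : ℕ) : ZMod Q) = ((nm v j : ℕ) : ZMod Q) ∨
      ((nm v i : ℕ) : ZMod Q) = - ((nm v j : ℕ) : ZMod Q) := by
  obtain ⟨_, h1, _, _⟩ := h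
  have hc : ((nm v 0 : ℕ) : ZMod Q) + ((nm v 1 : ℕ) : ZMod Q) = ((nm v 2 : ℕ) : ZMod Q) := by
    rw [← Nat.cast_add, h1]
  have h0 : ((nm v l : ℕ) : ZMod Q) = 0 := (ZMod.natCast_eq_zero_iff _ _).2 hQ
  have key : ∀ a b c : Fin 3, a ≠ b → a ≠ c → b ≠ c → ((nm v c : ℕ) : ZMod Q) = 0 →
      ((nm v a : ℕ) : ZMod Q) = ((nm v b : ℕ) : ZMod Q) ∨
      ((nm v a : ℕ) : ZMod Q) = - ((nm v b : ℕ) : ZMod Q) := by
    intro a b c hab hac hbc h0
    fin_cases a <;> fin_cases b <;> fin_cases c <;>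
      first
        | exact absurd rfl hab
        | exact absurd rfl hac
        | exact absurd rfl hbc
        | (change ((nm v 2 : ℕ) : ZMod Q) = 0 at h0
           show ((nm v 0 : ℕ) : ZMod Q) = ((nm v 1 : ℕ) : ZMod Q) ∨
             ((nm v 0 : ℕ) : ZMod Q) = - ((nm v 1 : ℕ) : ZMod Q)
           right
           linear_combination hc + h0)
        | (change ((nm v 2 : ℕ) : ZMod Q) = 0 at h0
           show ((nm v 1 : ℕ) : ZMod Q) = ((nm v 0 : ℕ) : ZMod Q) ∨
             ((nm v 1 : ℕ) : ZMod Q) = - ((nm v 0 : ℕ) : ZMod Q)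
           right
           linear_combination hc + h0)
        | (change ((nm v 1 : ℕ) : ZMod Q) = 0 at h0
           show ((nm v 0 : ℕ) : ZMod Q) = ((nm v 2 : ℕ) : ZMod Q) ∨
             ((nm v 0 : ℕ) : ZMod Q) = - ((nm v 2 : ℕ) : ZMod Q)
           left
           linear_combination hc - h0)
        | (change ((nm v 1 : ℕ) : ZMod Q) = 0 at h0
           show ((nm v 2 : ℕ) : ZMod Q) = ((nm v 0 : ℕ) : ZMod Q) ∨
             ((nm v 2 : ℕ) : ZMod Q) = - ((nm v 0 : ℕ) : ZMod Q)
           left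
           linear_combination - hc + h0)
        | (change ((nm v 0 : ℕ) : ZMod Q) = 0 at h0
           show ((nm v 1 : ℕ) : ZMod Q) = ((nm v 2 : ℕ) : ZMod Q) ∨
             ((nm v 1 : ℕ) : ZMod Q) = - ((nm v 2 : ℕ) : ZMod Q)
           left
           linear_combination hc - h0)
        | (change ((nm v 0 : ℕ) : ZMod Q) = 0 at h0
           show ((nm v 2 : ℕ) : ZMod Q) = ((nm v 1 : ℕ) : ZMod Q) ∨
             ((nm v 2 : ℕ) : ZMod Q) = - ((nm v 1 : ℕ) : ZMod Q)
           left
           linear_combination - hc + h0)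
  exact key i j l hij hil hjl h0

end Pool.H65.PF
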